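import Pool.Agent.H887R3.LW.MV8

/-!
# Part 10: coprime pairs of bounded height are the quotients of pairs of bounded length
-/

set_option autoImplicit false

namespace Pool.Agent.H887R3.LW

open Filter MeasureTheory Topology Set
open Pool.Agent.H261R2.CM

noncomputable section

theorem mult_bound (K : ℝ) : ∃ N : ℕ, ∀ (k : ℕ) (F G : MvPolynomial (Fin k) ℤ), F ≠ 0 → G ≠ 0 →
    IsRelPrime F G → mx F G ≤ K → ∃ P Q : MvPolynomial (Fin k) ℤ, P ≠ 0 ∧ Q ≠ 0 ∧
      P * F = Q * G ∧ mlen P ≤ N ∧ mlen Q ≤ N := by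
  by_contra hcon
  push Not at hcon
  choose d F G hF hG hFG hK hno using hcon
  obtain ⟨k, C, D, -, -, -, -, -, -, -, hev⟩ := struct_all' d F G hF hG hFG K hK
  have hge : ∀ᶠ n in (hyperfilter ℕ : Filter ℕ), (mlen C).toNat + (mlen D).toNat ≤ n :=
    I2_hyper_le (eventually_ge_atTop _)
  obtain ⟨n, ⟨-, P, Q, hP, hQ, hPQ, h1, h2⟩, hn⟩ := (hev.and hge).exists
  have h3 := Int.self_le_toNat (mlen C)
  have h4 := Int.self_le_toNat (mlen D)
  have h5 := hno n P Q hP hQ hPQ (by omega)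
  omega

theorem mx_le_of_len {k : ℕ} (P Q : MvPolynomial (Fin k) ℤ) (hP : P ≠ 0) (N : ℕ)
    (h1 : mlen P ≤ N) (h2 : mlen Q ≤ N) : mx P Q ≤ Real.log N := by
  have hN : 1 ≤ mlen P := by
    unfold mlen
    obtain ⟨s, hs⟩ := MvPolynomial.support_nonempty.2 hP
    have h3 : (1 : ℤ) ≤ |P.coeff s| := Int.one_le_abs (MvPolynomial.mem_support_iff.1 hs)
    exact h3.trans (Finset.single_le_sum (f := fun s => |P.coeff s|) (fun _ _ => abs_nonneg _) hs)
  have hN1 : (1 : ℝ) ≤ N := by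
    have : (1 : ℤ) ≤ N := hN.trans h1
    exact_mod_cast this
  have hb : ∀ t, max ‖tv P t‖ ‖tv Q t‖ ≤ N := by
    intro t
    refine max_le ?_ ?_
    · refine (norm_tv_le P t).trans ?_
      exact_mod_cast h1
    · refine (norm_tv_le Q t).trans ?_
      exact_mod_cast h2
  unfold mx
  by_cases hint : IntegrableOn (fun t : Fin k → ℝ => Real.log (max ‖tv P t‖ ‖tv Q t‖))
      (Set.Icc 0 1)
  · calc (∫ t in Set.Icc (0 : Fin k → ℝ) 1, Real.log (max ‖tv P t‖ ‖tv Q t‖))
        ≤ ∫ _ in Set.Icc (0 : Fin k → ℝ) 1, Real.log N := by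
          refine integral_mono_ae hint (integrable_const _) ?_
          filter_upwards [F_zero_null hP] with t ht
          have h3 : 0 < ‖tv P t‖ := norm_pos_iff.mpr ht
          exact Real.log_le_log (lt_of_lt_of_le h3 (le_max_left _ _)) (hb t)
      _ = Real.log N := by
          rw [setIntegral_const, J.vol_cube]
          simp
  · rw [integral_undef hint]
    exact Real.log_nonneg hN1

theorem mx_mul_ge {k : ℕ} (R F G : MvPolynomial (Fin k) ℤ) (hR : R ≠ 0) (hF : F ≠ 0) :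
    mx F G ≤ mx (R * F) (R * G) := by
  have hint : IntegrableOn (fun t : Fin k → ℝ => Real.log (max ‖tv F t‖ ‖tv G t‖))
      (Set.Icc 0 1) := by
    have h1 := K4_intk thM thM_cont thM_ge F G hF
    have h2 := h1.const_mul (1 / 2)
    refine h2.congr (Eventually.of_forall fun t => ?_)
    simp only
    rw [thM_log (norm_nonneg _) (norm_nonneg _)]
    ring
  have hintR := F_integrable hR
  have h3 : mx (R * F) (R * G) = (∫ t in Set.Icc (0 : Fin k → ℝ) 1, Real.log ‖tv R t‖) +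
      mx F G := by
    unfold mx
    rw [← integral_add hintR hint]
    refine integral_congr_ae ?_
    filter_upwards [F_zero_null hR, F_zero_null hF] with t h1 h2
    have h4 : 0 < ‖tv R t‖ := norm_pos_iff.mpr h1
    have h5 : 0 < ‖tv F t‖ := norm_pos_iff.mpr h2
    rw [J.norm_tv_mul, J.norm_tv_mul, ← mul_max_of_nonneg _ _ h4.le,
      Real.log_mul h4.ne' (lt_of_lt_of_le h5 (le_max_left _ _)).ne']
  rw [h3, ← log_mM]
  have := Real.log_nonneg (one_le_mM R hR)
  linarith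

theorem mult_converse {k : ℕ} (F G P Q : MvPolynomial (Fin k) ℤ) (hF : F ≠ 0)
    (hFG : IsRelPrime F G) (hQ : Q ≠ 0) (h : P * F = Q * G) (N : ℕ)
    (h1 : mlen P ≤ N) (h2 : mlen Q ≤ N) : mx F G ≤ Real.log N := by
  have hFQ : F ∣ Q := by
    have h3 : F ∣ Q * G := ⟨P, by rw [← h, mul_comm]⟩
    exact hFG.dvd_of_dvd_mul_right h3
  obtain ⟨R, hR⟩ := hFQ
  have hR0 : R ≠ 0 := by
    rintro rfl
    exact hQ (by rw [hR, mul_zero])
  have hPR : P = R * G := by
    have h3 : F * P = F * (R * G) := by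
      rw [mul_comm F P, h, hR]
      ring
    exact mul_left_cancel₀ hF h3
  have hQR : Q = R * F := by rw [hR, mul_comm]
  refine (mx_mul_ge R F G hR0 hF).trans ?_
  rw [← hPR, ← hQR]
  exact mx_le_of_len Q P hQ N h2 h1

theorem nonrecip_mult (B : ℝ) : ∃ N : ℕ, ∀ (k : ℕ) (F : MvPolynomial (Fin k) ℤ), Irreducible F →
    ¬ Associated (recip F) F → mM F ≤ B → ∃ Q : MvPolynomial (Fin k) ℤ, Q ≠ 0 ∧ F ∣ Q ∧
      mlen Q ≤ N := by
  obtain ⟨N, hN⟩ := mult_bound (Real.log (max B 1))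
  refine ⟨N, fun k F hF hrec hB => ?_⟩
  have hFG := relPrime_recip F hF hrec
  obtain ⟨P, Q, hP, hQ, hPQ, h1, h2⟩ := hN k F (recip F) hF.ne_zero (J.recip_ne_zero hF.ne_zero)
    hFG (by
      rw [mx_recip]
      exact Real.log_le_log (lt_of_lt_of_le one_pos (one_le_mM F hF.ne_zero))
        (hB.trans (le_max_left _ _)))
  refine ⟨Q, hQ, ?_, h2⟩
  have h3 : F ∣ Q * recip F := ⟨P, by rw [← hPQ, mul_comm]⟩
  exact hFG.dvd_of_dvd_mul_right h3

end

end Pool.Agent.H887R3.LW
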