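import Pool.Agent.H887R3.LW.MV10

/-!
# Part 11: sequences of irreducible polynomials of growing dimension
-/

set_option autoImplicit false

namespace Pool.Agent.H887R3.LW

open Filter MeasureTheory Topology Set
open Pool.Agent.H261R2.CM

noncomputable section

/-- the logarithmic Mahler measures of the monomial substitutions `F_A ≠ 0` of `F` -/
def MM {k : ℕ} (F : MvPolynomial (Fin k) ℤ) : Set ℝ :=
  {y : ℝ | ∃ (l : ℕ) (A : Matrix (Fin l) (Fin k) ℤ),
    (∃ t : Fin l → ℝ, tv F (fun j => ∑ i, (A i j : ℝ) * t i) ≠ 0) ∧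
    y = ∫ t in Set.Icc (0 : Fin l → ℝ) 1, Real.log ‖tv F (fun j => ∑ i, (A i j : ℝ) * t i)‖}

theorem MM_le {k : ℕ} (F : MvPolynomial (Fin k) ℤ) (hF : F ≠ 0) (y : ℝ) (hy : y ∈ MM F) :
    y ≤ Real.log (mlen F) := by
  obtain ⟨l, A, -, rfl⟩ := hy
  have hN : (1 : ℤ) ≤ mlen F := by
    unfold mlen
    obtain ⟨s, hs⟩ := MvPolynomial.support_nonempty.2 hF
    have h3 : (1 : ℤ) ≤ |F.coeff s| := Int.one_le_abs (MvPolynomial.mem_support_iff.1 hs)
    exact h3.trans (Finset.single_le_sum (f := fun s => |F.coeff s|) (fun _ _ => abs_nonneg _) hs)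
  have hN1 : (1 : ℝ) ≤ (mlen F : ℝ) := by exact_mod_cast hN
  have hlog : 0 ≤ Real.log (mlen F : ℝ) := Real.log_nonneg hN1
  by_cases hint : IntegrableOn (fun t : Fin l → ℝ =>
      Real.log ‖tv F (fun j => ∑ i, (A i j : ℝ) * t i)‖) (Set.Icc 0 1)
  · calc (∫ t in Set.Icc (0 : Fin l → ℝ) 1, Real.log ‖tv F (fun j => ∑ i, (A i j : ℝ) * t i)‖)
        ≤ ∫ _ in Set.Icc (0 : Fin l → ℝ) 1, Real.log (mlen F : ℝ) := by
          refine integral_mono hint (integrable_const _) fun t => ?_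
          simp only
          have hb := norm_tv_le F (fun j => ∑ i, (A i j : ℝ) * t i)
          rcases eq_or_lt_of_le (norm_nonneg (tv F (fun j => ∑ i, (A i j : ℝ) * t i))) with h | h
          · rw [← h, Real.log_zero]
            exact hlog
          · exact Real.log_le_log h hb
      _ = Real.log (mlen F : ℝ) := by
          rw [setIntegral_const, J.vol_cube]
          simp
  · rw [integral_undef hint]
    exact hlog

theorem growing (w : ℕ) (d : ℕ → ℕ) (F : ∀ n, MvPolynomial (Fin (d n)) ℤ)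
    (hirr : ∀ n, Irreducible (F n)) (hdim : Tendsto (fun n => newtonDim (F n)) atTop atTop)
    (hcase : ∀ n, ¬ Associated (recip (F n)) (F n) ∨
      ∃ i, 1 ≤ (F n).degreeOf i ∧ (F n).degreeOf i ≤ w)
    {k : ℕ} (G : MvPolynomial (Fin k) ℤ) (hG : G ≠ 0) :
    {n : ℕ | (∫ t in Set.Icc (0 : Fin (d n) → ℝ) 1, Real.log ‖tv (F n) t‖) ∈ MM G}.Finite := by
  obtain ⟨m₀, hm₀⟩ := boyd_dim (Real.exp (Real.log (mlen G) + 1)) w
  obtain ⟨N, hN⟩ := (hdim.eventually_ge_atTop m₀).exists_forall_of_atTop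
  refine (finite_lt_nat N).subset fun n hn => ?_
  by_contra hle
  simp only [mem_ofPred_eq, not_lt] at hle
  have h1 := hm₀ (d n) (F n) (hirr n) (hN n hle) (hcase n)
  have h2 := MM_le G hG _ hn
  have h3 : Real.log (mlen G) + 1 ≤ ∫ t in Set.Icc (0 : Fin (d n) → ℝ) 1, Real.log ‖tv (F n) t‖ := by
    unfold mM at h1
    exact Real.exp_le_exp.1 h1
  linarith

end

end Pool.Agent.H887R3.LW
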