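import Pool.Agent.H887R3.LW.MV9
import Pool.Agent.H261R2.CM.J4

/-!
# Part 12: the dimension filtration of the set of nonreciprocal Mahler measures
-/

set_option autoImplicit false

namespace Pool.Agent.H887R3.LW

open Filter MeasureTheory Topology Set
open Pool.Agent.H261R2.CM

noncomputable section

/-- the dimension of the Newton polytope (over the rational numbers) -/
def nD {k : ℕ} (F : MvPolynomial (Fin k) ℤ) : ℕ :=
  Module.finrank ℚ (vectorSpan ℚ (vecs ℚ F.support))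

theorem star_of_ae {k : ℕ} (C D : MvPolynomial (Fin k) ℤ)
    (h : ∀ᵐ t ∂(volume.restrict (Set.Icc (0 : Fin k → ℝ) 1)), ‖tv C t‖ = ‖tv D t‖) :
    C * J.rv (J.dg C + J.dg D) C = D * J.rv (J.dg C + J.dg D) D := by
  set d : Fin k →₀ ℕ := J.dg C + J.dg D with hd
  have hCd : J.sle C d := J.sle_iff.2 (le_self_add)
  have hDd : J.sle D d := J.sle_iff.2 (le_add_self)
  by_contra hne
  have h0 : C * J.rv d C - D * J.rv d D ≠ 0 := sub_ne_zero.2 hne
  have h1 := F_zero_null h0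
  have h2 : ∀ᵐ t ∂(volume.restrict (Set.Icc (0 : Fin k → ℝ) 1)), False := by
    filter_upwards [h, h1] with t ht1 ht2
    apply ht2
    have h3 : tv (C * J.rv d C - D * J.rv d D) t = tv (C * J.rv d C) t - tv (D * J.rv d D) t := by
      rw [J.tv_eq, map_sub]
      rfl
    rw [h3, J.tv_mul, J.tv_mul, J.tv_rv hCd, J.tv_rv hDd, sub_eq_zero]
    have h4 : tv C t * (starRingEnd ℂ) (tv C t) = tv D t * (starRingEnd ℂ) (tv D t) := by
      rw [Complex.mul_conj, Complex.mul_conj, Complex.normSq_eq_norm_sq,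
        Complex.normSq_eq_norm_sq, ht1]
    calc tv C t * ((∏ i, J.zz t i ^ d i) * (starRingEnd ℂ) (tv C t))
        = (∏ i, J.zz t i ^ d i) * (tv C t * (starRingEnd ℂ) (tv C t)) := by ring
      _ = (∏ i, J.zz t i ^ d i) * (tv D t * (starRingEnd ℂ) (tv D t)) := by rw [h4]
      _ = _ := by ring
  rw [Filter.eventually_false_iff_eq_bot, ae_eq_bot] at h2
  have h3 := J.vol_cube (k := k)
  rw [measureReal_def] at h3
  rw [Measure.restrict_eq_zero] at h2
  rw [h2] at h3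
  simp at h3

theorem norm_of_star {k : ℕ} (C D : MvPolynomial (Fin k) ℤ)
    (h : C * J.rv (J.dg C + J.dg D) C = D * J.rv (J.dg C + J.dg D) D) (t : Fin k → ℝ) :
    ‖tv C t‖ = ‖tv D t‖ := by
  set d : Fin k →₀ ℕ := J.dg C + J.dg D with hd
  have hCd : J.sle C d := J.sle_iff.2 (le_self_add)
  have hDd : J.sle D d := J.sle_iff.2 (le_add_self)
  have h1 : ‖tv (C * J.rv d C) t‖ = ‖tv (D * J.rv d D) t‖ := by rw [h]
  rw [J.norm_tv_mul, J.norm_tv_mul, J.norm_tv_rv hCd, J.norm_tv_rv hDd] at h1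
  exact (mul_self_inj_of_nonneg (norm_nonneg _) (norm_nonneg _)).1 h1

/-- a limit pair with equal integrals is a pair of polynomials of the same modulus -/
theorem pairK_of_mx {k : ℕ} (C D : MvPolynomial (Fin k) ℤ) (hC : C ≠ 0) (hD : D ≠ 0)
    (hCD : IsRelPrime C D) (h1 : mx C D = Real.log (mM C)) (h2 : mx C D = Real.log (mM D)) :
    PairK C D := by
  have hint : IntegrableOn (fun t : Fin k → ℝ => Real.log (max ‖tv C t‖ ‖tv D t‖))
      (Set.Icc 0 1) := by
    have h1 := K4_intk thM thM_cont thM_ge C D hC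
    have h2 := h1.const_mul (1 / 2)
    refine h2.congr (Eventually.of_forall fun t => ?_)
    simp only
    rw [thM_log (norm_nonneg _) (norm_nonneg _)]
    ring
  have key : ∀ E : MvPolynomial (Fin k) ℤ, E ≠ 0 → mx C D = Real.log (mM E) →
      (∀ t, ‖tv E t‖ ≤ max ‖tv C t‖ ‖tv D t‖) →
      ∀ᵐ t ∂(volume.restrict (Set.Icc (0 : Fin k → ℝ) 1)),
        Real.log (max ‖tv C t‖ ‖tv D t‖) - Real.log ‖tv E t‖ = 0 := by
    intro E hE hEq hle
    have hintE := F_integrable hE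
    have h3 : ∫ t in Set.Icc (0 : Fin k → ℝ) 1,
        (Real.log (max ‖tv C t‖ ‖tv D t‖) - Real.log ‖tv E t‖) = 0 := by
      rw [integral_sub hint hintE, ← log_mM]
      unfold mx at hEq
      rw [hEq, sub_self]
    have h4 : 0 ≤ᵐ[volume.restrict (Set.Icc (0 : Fin k → ℝ) 1)] fun t =>
        (Real.log (max ‖tv C t‖ ‖tv D t‖) - Real.log ‖tv E t‖) := by
      filter_upwards [F_zero_null hE] with t ht
      have h5 : 0 < ‖tv E t‖ := norm_pos_iff.mpr ht
      exact sub_nonneg.2 (Real.log_le_log h5 (hle t))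
    exact (integral_eq_zero_iff_of_nonneg_ae h4 (hint.sub hintE)).1 h3
  have hae : ∀ᵐ t ∂(volume.restrict (Set.Icc (0 : Fin k → ℝ) 1)), ‖tv C t‖ = ‖tv D t‖ := by
    filter_upwards [key C hC h1 (fun t => le_max_left _ _), key D hD h2 (fun t => le_max_right _ _),
      F_zero_null hC, F_zero_null hD] with t h3 h4 h5 h6
    have h7 : 0 < ‖tv C t‖ := norm_pos_iff.mpr h5
    have h8 : 0 < ‖tv D t‖ := norm_pos_iff.mpr h6
    exact Real.log_injOn_pos h7 h8 (by linarith)
  exact ⟨hC, hD, hCD, norm_of_star C D (star_of_ae C D hae)⟩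

theorem vectorSpan_pair {k : ℕ} (C D : MvPolynomial (Fin k) ℤ) (h : PairK C D) :
    vectorSpan ℚ (vecs ℚ D.support) ≤ vectorSpan ℚ (vecs ℚ C.support) := by
  classical
  obtain ⟨hC, hD, -, hn⟩ := h
  have hstar := star_of_ae C D (Eventually.of_forall hn)
  set d : Fin k →₀ ℕ := J.dg C + J.dg D with hd
  have hCd : J.sle C d := J.sle_iff.2 (le_self_add)
  have hDd : J.sle D d := J.sle_iff.2 (le_add_self)
  set W := vectorSpan ℚ (vecs ℚ C.support) with hW
  unfold vectorSpan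
  rw [Submodule.span_le]
  rintro _ ⟨_, ⟨s, hs, rfl⟩, _, ⟨t, ht, rfl⟩, rfl⟩
  by_contra hnot
  obtain ⟨f, hf1, hf2⟩ := Submodule.exists_dual_map_eq_bot_of_notMem hnot inferInstance
  have hfW : ∀ w ∈ W, f w = 0 := by
    intro w hw
    have h1 := Submodule.mem_map_of_mem (f := f) hw
    rw [hf2] at h1
    exact (Submodule.mem_bot ℚ).1 h1
  set φ : (Fin k →₀ ℕ) → ℚ := fun s => f (fun i => ((s i : ℕ) : ℚ)) with hφ
  have hadd : ∀ a b, φ (a + b) = φ a + φ b := by
    intro a b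
    simp only [hφ]
    rw [← map_add]
    congr 1
    ext i
    simp
  obtain ⟨u, hu⟩ := MvPolynomial.support_nonempty.2 hC
  have hconst : ∀ v ∈ C.support, φ v = φ u := by
    intro v hv
    have h1 : ((fun i => ((v i : ℕ) : ℚ)) -ᵥ (fun i => ((u i : ℕ) : ℚ)) : Fin k → ℚ) ∈ W := by
      rw [hW]
      exact vsub_mem_vectorSpan ℚ ⟨v, hv, rfl⟩ ⟨u, hu, rfl⟩
    have h2 := hfW _ h1
    have h5 : ((fun i => ((v i : ℕ) : ℚ)) -ᵥ (fun i => ((u i : ℕ) : ℚ)) : Fin k → ℚ) =
        (fun i => ((v i : ℕ) : ℚ)) - (fun i => ((u i : ℕ) : ℚ)) := rfl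
    rw [h5, map_sub, sub_eq_zero] at h2
    exact h2
  have hprod : ∀ v ∈ (D * J.rv d D).support, φ v = φ d := by
    rw [← hstar]
    intro v hv
    obtain ⟨a, ha, b, hb, rfl⟩ := mem_add_of_mem_mul hv
    have hb' : ∃ c ∈ C.support, b = d - c := by
      unfold J.rv at hb
      by_contra hno
      push Not at hno
      rw [MvPolynomial.mem_support_iff, MvPolynomial.coeff_sum] at hb
      apply hb
      refine Finset.sum_eq_zero fun c hc => ?_
      rw [MvPolynomial.coeff_monomial, if_neg (fun hh => hno c hc hh.symm)]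
    obtain ⟨c, hc, rfl⟩ := hb'
    have h6 : d - c + c = d := tsub_add_cancel_of_le (hCd c hc)
    have h7 := hadd (d - c) c
    rw [h6] at h7
    rw [hadd, h7, hconst a ha, hconst c hc]
    ring
  obtain ⟨a, ha⟩ := const_of_mul φ hadd D (J.rv d D) hD (J.rv_ne_zero hDd hD) (φ d) hprod
  apply hf1
  have h3 := ha s hs
  have h4 := ha t ht
  simp only [hφ] at h3 h4
  have h5 : ((fun i => ((s i : ℕ) : ℚ)) -ᵥ (fun i => ((t i : ℕ) : ℚ)) : Fin k → ℚ) =
      (fun i => ((s i : ℕ) : ℚ)) - (fun i => ((t i : ℕ) : ℚ)) := rfl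
  change f ((fun i => ((s i : ℕ) : ℚ)) -ᵥ (fun i => ((t i : ℕ) : ℚ))) = 0
  rw [h5, map_sub, h3, h4, sub_self]

theorem dimJ_le_nD {k : ℕ} (C D : MvPolynomial (Fin k) ℤ) (h : PairK C D) :
    dimJ C D ≤ nD C + 1 := by
  classical
  have hV := vectorSpan_pair C D h
  obtain ⟨hC, hD, -, -⟩ := h
  obtain ⟨u, hu⟩ := MvPolynomial.support_nonempty.2 hC
  obtain ⟨w, hw⟩ := MvPolynomial.support_nonempty.2 hD
  set ι : (Fin k →₀ ℕ) → (Fin k → ℚ) := fun s i => ((s i : ℕ) : ℚ) with hι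
  set V := vectorSpan ℚ (vecs ℚ C.support) with hVdef
  set e : Fin k → ℚ := ι u - ι w with he
  have hCC : ∀ s ∈ C.support, ι s - ι u ∈ V := fun s hs =>
    vsub_mem_vectorSpan ℚ ⟨s, hs, rfl⟩ ⟨u, hu, rfl⟩
  have hDD : ∀ s ∈ D.support, ι s - ι w ∈ V := fun s hs =>
    hV (vsub_mem_vectorSpan ℚ ⟨s, hs, rfl⟩ ⟨w, hw, rfl⟩)
  have hall : ∀ s ∈ C.support ∪ D.support, ι s - ι u ∈ V ⊔ Submodule.span ℚ {e} := by
    intro s hs
    rcases Finset.mem_union.1 hs with h1 | h1
    · exact Submodule.mem_sup_left (hCC s h1)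
    · have h2 : ι s - ι u = (ι s - ι w) - e := by
        rw [he]; abel
      rw [h2]
      exact Submodule.sub_mem _ (Submodule.mem_sup_left (hDD s h1))
        (Submodule.mem_sup_right (Submodule.mem_span_singleton_self e))
  have hle : vectorSpan ℚ (vecs ℚ (C.support ∪ D.support)) ≤ V ⊔ Submodule.span ℚ {e} := by
    unfold vectorSpan
    rw [Submodule.span_le]
    rintro _ ⟨_, ⟨s, hs, rfl⟩, _, ⟨t, ht, rfl⟩, rfl⟩
    have h2 : (ι s -ᵥ ι t : Fin k → ℚ) = (ι s - ι u) - (ι t - ι u) := by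
      change ι s - ι t = _
      abel
    change (ι s -ᵥ ι t : Fin k → ℚ) ∈ V ⊔ Submodule.span ℚ {e}
    rw [h2]
    exact Submodule.sub_mem _ (hall s hs) (hall t ht)
  unfold dimJ nD
  calc Module.finrank ℚ (vectorSpan ℚ (vecs ℚ (C.support ∪ D.support)))
      ≤ Module.finrank ℚ ↥(V ⊔ Submodule.span ℚ {e}) := Submodule.finrank_mono hle
    _ ≤ Module.finrank ℚ V + Module.finrank ℚ (Submodule.span ℚ {e}) :=
        Submodule.finrank_add_le_finrank_add_finrank _ _
    _ ≤ Module.finrank ℚ V + 1 := by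
        have := finrank_span_le_card (R := ℚ) ({e} : Set (Fin k → ℚ))
        simp at this
        omega

end

end Pool.Agent.H887R3.LW
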