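import Pool.Agent.H887R3.LW.MV12

/-!
# Part 13: the dimension filtration of the set of nonreciprocal Mahler measures, main theorem
-/

set_option autoImplicit false

namespace Pool.Agent.H887R3.LW

open Filter MeasureTheory Topology Set
open Pool.Agent.H261R2.CM

noncomputable section

theorem nD_rename {k : ℕ} (F : MvPolynomial (Fin k) ℤ) :
    nD F ≤ nD (MvPolynomial.rename (Fin.succ : Fin k → Fin (k + 1)) F) := by
  classical
  unfold nD
  set T : (Fin (k + 1) → ℚ) →ₗ[ℚ] (Fin k → ℚ) := LinearMap.funLeft ℚ ℚ Fin.succ with hT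
  have hle : vectorSpan ℚ (vecs ℚ F.support) ≤ Submodule.map T
      (vectorSpan ℚ (vecs ℚ (MvPolynomial.rename (Fin.succ : Fin k → Fin (k + 1)) F).support)) := by
    have hkey : ∀ s ∈ F.support, ∃ v ∈ vecs ℚ
        (MvPolynomial.rename (Fin.succ : Fin k → Fin (k + 1)) F).support,
        T v = fun i => ((s i : ℕ) : ℚ) := by
      intro s hs
      have h1 : Finsupp.mapDomain Fin.succ s ∈
          (MvPolynomial.rename (Fin.succ : Fin k → Fin (k + 1)) F).support := by
        rw [MvPolynomial.support_rename_of_injective (Fin.succ_injective k)]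
        exact Finset.mem_image_of_mem _ hs
      refine ⟨_, ⟨_, h1, rfl⟩, ?_⟩
      funext i
      simp only [hT, LinearMap.funLeft_apply]
      rw [Finsupp.mapDomain_apply (Fin.succ_injective k)]
    unfold vectorSpan
    rw [Submodule.span_le]
    rintro _ ⟨_, ⟨s, hs, rfl⟩, _, ⟨t, ht, rfl⟩, rfl⟩
    obtain ⟨v, hv, hv'⟩ := hkey s hs
    obtain ⟨w, hw, hw'⟩ := hkey t ht
    refine ⟨v -ᵥ w, Submodule.subset_span ⟨v, hv, w, hw, rfl⟩, ?_⟩
    change T (v - w) = _
    rw [map_sub, hv', hw']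
    rfl
  exact (Submodule.finrank_mono hle).trans (Submodule.finrank_map_le _ _)

/-- the companion of `F` in one more variable -/
def comp {k : ℕ} (F : MvPolynomial (Fin k) ℤ) : MvPolynomial (Fin (k + 1)) ℤ :=
  MvPolynomial.X 0 * MvPolynomial.rename Fin.succ (recip F)

theorem comp_ne_zero {k : ℕ} {F : MvPolynomial (Fin k) ℤ} (hF : F ≠ 0) : comp F ≠ 0 :=
  mul_ne_zero (MvPolynomial.X_ne_zero 0) (J.rename_ne_zero (J.recip_ne_zero hF))

theorem relPrime_comp {k : ℕ} {F : MvPolynomial (Fin k) ℤ} (hF : F ≠ 0)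
    (h : IsRelPrime F (recip F)) :
    IsRelPrime (MvPolynomial.rename Fin.succ F) (comp F) := by
  unfold comp
  refine IsRelPrime.mul_right ?_ (J.relPrime_rename hF h)
  have hX : Irreducible (MvPolynomial.X (0 : Fin (k + 1)) : MvPolynomial (Fin (k + 1)) ℤ) :=
    MvPolynomial.X_prime.irreducible
  refine IsRelPrime.symm ?_
  rw [hX.isRelPrime_iff_not_dvd]
  intro hdvd
  have h1 := J.degreeOf_zero_of_dvd (J.rename_ne_zero hF) hdvd 0 (J.degreeOf_zero_rename F)
  rw [MvPolynomial.degreeOf_X, if_pos rfl] at h1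
  exact one_ne_zero h1

theorem norm_comp {k : ℕ} (F : MvPolynomial (Fin k) ℤ) (t : Fin (k + 1) → ℝ) :
    ‖tv (comp F) t‖ = ‖tv (MvPolynomial.rename Fin.succ F) t‖ := by
  unfold comp
  rw [J.norm_tv_mul, J.tv_X, J.norm_zz, one_mul, J.tv_rename, J.tv_rename, J.norm_tv_recip]

theorem mM_comp {k : ℕ} (F : MvPolynomial (Fin k) ℤ) : mM (comp F) = mM F := by
  rw [J.mM_congr (norm_comp F), J.mM_rename]

theorem mx_comp {k : ℕ} (F : MvPolynomial (Fin k) ℤ) :
    mx (MvPolynomial.rename Fin.succ F) (comp F) = Real.log (mM F) := by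
  rw [← J.mM_rename F, log_mM]
  unfold mx
  refine integral_congr_ae (Eventually.of_forall fun t => ?_)
  simp only
  rw [norm_comp, max_self]

theorem dimJ_comp {k : ℕ} (F : MvPolynomial (Fin k) ℤ) (hF : F ≠ 0) :
    nD F + 1 ≤ dimJ (MvPolynomial.rename Fin.succ F) (comp F) := by
  classical
  refine Nat.succ_le_of_lt ((nD_rename F).trans_lt ?_)
  unfold nD dimJ
  refine Submodule.finrank_lt_finrank_of_lt (lt_of_le_of_ne (vectorSpan_mono ℚ ?_) ?_)
  · unfold vecs
    refine Set.image_mono ?_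
    intro s hs
    exact Finset.mem_coe.2 (Finset.mem_union_left _ (Finset.mem_coe.1 hs))
  · intro heq
    set F' := MvPolynomial.rename (Fin.succ : Fin k → Fin (k + 1)) F with hF'
    obtain ⟨s, hs⟩ := MvPolynomial.support_nonempty.2 (J.rename_ne_zero hF)
    obtain ⟨t, ht⟩ := MvPolynomial.support_nonempty.2 (comp_ne_zero hF)
    have hs0 : ∀ s ∈ F'.support, s 0 = 0 := by
      intro s hs
      have h1 := MvPolynomial.monomial_le_degreeOf 0 hs
      rw [hF', J.degreeOf_zero_rename] at h1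
      omega
    have ht0 : t 0 = 1 := by
      unfold comp at ht
      rw [MvPolynomial.support_X_mul, Finset.mem_map] at ht
      obtain ⟨u, hu, rfl⟩ := ht
      have h1 := MvPolynomial.monomial_le_degreeOf 0 hu
      rw [J.degreeOf_zero_rename] at h1
      have h2 : u 0 = 0 := by omega
      simp [h2]
    have hmem : ((fun i => ((s i : ℕ) : ℚ)) -ᵥ (fun i => ((t i : ℕ) : ℚ)) : Fin (k + 1) → ℚ) ∈
        vectorSpan ℚ (vecs ℚ F'.support) := by
      rw [heq]
      exact vsub_mem_vectorSpan ℚ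
        ⟨s, Finset.mem_coe.2 (Finset.mem_union_left _ hs), rfl⟩
        ⟨t, Finset.mem_coe.2 (Finset.mem_union_right _ ht), rfl⟩
    have hz : ∀ v ∈ vectorSpan ℚ (vecs ℚ F'.support), v 0 = 0 := by
      intro v hv
      have hle : vectorSpan ℚ (vecs ℚ F'.support) ≤ LinearMap.ker
          (LinearMap.proj (R := ℚ) (φ := fun _ : Fin (k + 1) => ℚ) 0) := by
        unfold vectorSpan
        rw [Submodule.span_le]
        rintro _ ⟨_, ⟨a, ha, rfl⟩, _, ⟨b, hb, rfl⟩, rfl⟩
        change ((a 0 : ℕ) : ℚ) - ((b 0 : ℕ) : ℚ) = 0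
        rw [hs0 a ha, hs0 b hb]
        simp
      exact hle hv
    have h1 := hz _ hmem
    change ((s 0 : ℕ) : ℚ) - ((t 0 : ℕ) : ℚ) = 0 at h1
    rw [hs0 s hs, ht0] at h1
    norm_num at h1

/-- the measures of the polynomials coprime to their reciprocal whose Newton polytope has dimension
at least `j` -/
def NN (j : ℕ) : Set ℝ :=
  {x : ℝ | ∃ k : ℕ, ∃ C : MvPolynomial (Fin k) ℤ, C ≠ 0 ∧ IsRelPrime C (recip C) ∧ j ≤ nD C ∧
    x = mM C}

/-- limits of sequences of measures from `NN j` -/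
theorem NN_limit (j : ℕ) (u : ℕ → ℝ) (x : ℝ) (hu : ∀ n, u n ∈ NN j)
    (hlim : Tendsto u atTop (𝓝 x)) :
    x ∈ NN j ∧ ((∀ n, u n ≠ x) → x ∈ NN (j + 1)) := by
  choose d P hP hPr hj hux using hu
  obtain ⟨B, hB⟩ := hlim.bddAbove_range
  have hB' : ∀ n, u n ≤ B := fun n => hB ⟨n, rfl⟩
  have hpos : ∀ n, 0 < mM (P n) := fun n => lt_of_lt_of_le one_pos (one_le_mM _ (hP n))
  obtain ⟨k, C, D, hC, hD, hCD, hl1, hl2, hl3, hk, hev⟩ := struct_all' (fun n => d n + 1)
    (fun n => MvPolynomial.rename Fin.succ (P n)) (fun n => comp (P n))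
    (fun n => J.rename_ne_zero (hP n)) (fun n => comp_ne_zero (hP n))
    (fun n => relPrime_comp (hP n) (hPr n)) (Real.log B)
    (fun n => by
      rw [mx_comp]
      refine Real.log_le_log (hpos n) ?_
      rw [← hux n]
      exact hB' n)
  simp only [J.mM_rename] at hl1
  simp only [mM_comp] at hl3
  simp only [mx_comp] at hl2
  have hlim' : Tendsto (fun n => mM (P n)) (hyperfilter ℕ : Filter ℕ) (𝓝 x) :=
    (hlim.mono_left I2_hyper_le).congr fun n => hux n
  have hxC : x = mM C := tendsto_nhds_unique hlim' hl1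
  have hxD : x = mM D := tendsto_nhds_unique hlim' hl3
  have hCpos : 0 < mM C := lt_of_lt_of_le one_pos (one_le_mM C hC)
  have hlog : Tendsto (fun n => Real.log (mM (P n))) (hyperfilter ℕ : Filter ℕ)
      (𝓝 (Real.log (mM C))) := (Real.continuousAt_log hCpos.ne').tendsto.comp hl1
  have hmx : mx C D = Real.log (mM C) := tendsto_nhds_unique hl2 hlog
  have hpair : PairK C D := pairK_of_mx C D hC hD hCD hmx (by rw [hmx, ← hxC, hxD])
  have hdim := dimJ_le_nD C D hpair
  obtain ⟨-, hCr⟩ := (pair_iff C).1 ⟨D, hpair⟩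
  obtain ⟨n, ⟨-, hn2, hn3⟩, -⟩ := hev.exists
  have h1 := dimJ_comp (P n) (hP n)
  have h2 := hj n
  refine ⟨⟨k, C, hC, hCr, by omega, hxC⟩, fun hne => ?_⟩
  refine ⟨k, C, hC, hCr, ?_, hxC⟩
  have h3 : ¬ k ≤ dimJ (MvPolynomial.rename Fin.succ (P n)) (comp (P n)) := by
    intro h4
    have h5 := hn3 h4
    rw [J.mM_rename] at h5
    exact hne n (by rw [hux n, h5, hxC])
  omega

theorem NN_closed (j : ℕ) : IsClosed (NN j) := by
  refine isClosed_of_closure_subset fun x hx => ?_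
  rw [mem_closure_iff_seq_limit] at hx
  obtain ⟨u, hu, hlim⟩ := hx
  exact (NN_limit j u x hu hlim).1

theorem NN_derived (j : ℕ) : derivedSet (NN j) ⊆ NN (j + 1) := by
  intro x hx
  rw [mem_derivedSet, accPt_principal_iff_clusterPt, ← mem_closure_iff_clusterPt,
    mem_closure_iff_seq_limit] at hx
  obtain ⟨u, hu, hlim⟩ := hx
  exact (NN_limit j u x (fun n => (hu n).1) hlim).2 fun n h => (hu n).2 h

theorem NN_zero : NN 0 ⊆ NN 1 ∪ {1} := by
  classical
  rintro x ⟨k, C, hC, hr, -, rfl⟩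
  by_cases h : 1 ≤ nD C
  · exact Or.inl ⟨k, C, hC, hr, h, rfl⟩
  · right
    have h0 : nD C = 0 := by omega
    unfold nD at h0
    rw [Submodule.finrank_eq_zero] at h0
    obtain ⟨s, hs⟩ := MvPolynomial.support_nonempty.2 hC
    have hsub : ∀ t ∈ C.support, t = s := by
      intro t ht
      have h1 : ((fun i => ((t i : ℕ) : ℚ)) -ᵥ (fun i => ((s i : ℕ) : ℚ)) : Fin k → ℚ) ∈
          vectorSpan ℚ (vecs ℚ C.support) := vsub_mem_vectorSpan ℚ ⟨t, ht, rfl⟩ ⟨s, hs, rfl⟩
      rw [h0, Submodule.mem_bot] at h1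
      ext i
      have h2 := congrFun h1 i
      change ((t i : ℕ) : ℚ) - ((s i : ℕ) : ℚ) = 0 at h2
      have h3 : ((t i : ℕ) : ℚ) = ((s i : ℕ) : ℚ) := by linarith
      exact_mod_cast h3
    have hCs : C = MvPolynomial.monomial s (C.coeff s) := by
      conv_lhs => rw [C.as_sum]
      have h4 : C.support = {s} := by
        ext t
        rw [Finset.mem_singleton]
        exact ⟨hsub t, fun h => h ▸ hs⟩
      rw [h4, Finset.sum_singleton]
    have h5 : (MvPolynomial.C (C.coeff s) : MvPolynomial (Fin k) ℤ) ∣ C := by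
      rw [hCs, MvPolynomial.coeff_monomial, if_pos rfl]
      exact ⟨MvPolynomial.monomial s 1, by rw [MvPolynomial.C_mul_monomial, mul_one]⟩
    have h6 : (MvPolynomial.C (C.coeff s) : MvPolynomial (Fin k) ℤ) ∣ recip C := by
      rw [MvPolynomial.C_dvd_iff_dvd_coeff]
      intro u
      unfold recip
      rw [MvPolynomial.coeff_sum]
      refine Finset.dvd_sum fun v hv => ?_
      rw [MvPolynomial.coeff_monomial]
      split_ifs
      · rw [hsub v hv]
      · exact dvd_zero _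
    have h7 := hr h5 h6
    have h8 : IsUnit (C.coeff s) := by
      rw [MvPolynomial.isUnit_iff_eq_C_of_isReduced] at h7
      obtain ⟨r, hr1, hr2⟩ := h7
      rwa [MvPolynomial.C_injective _ _ hr2]
    rw [mem_singleton_iff]
    refine J.mM_of_norm_const one_pos fun t => ?_
    rw [hCs, J.tv_monomial, norm_mul, norm_prod]
    simp only [norm_pow, J.norm_zz, one_pow, Finset.prod_const_one, mul_one]
    rcases Int.isUnit_iff.1 h8 with h | h <;> simp [h]

theorem NR_subset : NR ⊆ NN 0 := by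
  intro x hx
  unfold NR at hx
  rw [nonrecip_set_eq] at hx
  obtain ⟨k, -, C, D, hCD, rfl⟩ := hx
  obtain ⟨h1, h2⟩ := (pair_iff C).1 ⟨D, hCD⟩
  exact ⟨k, C, h1, h2, Nat.zero_le _, rfl⟩

theorem NR_eq : NR = NN 0 := by
  refine Subset.antisymm NR_subset ?_
  rintro x ⟨k, C, hC, hr, -, rfl⟩
  unfold NR
  rw [nonrecip_set_eq]
  exact ⟨k + 1, by omega, MvPolynomial.rename Fin.succ C, comp C,
    ⟨J.rename_ne_zero hC, comp_ne_zero hC, relPrime_comp hC hr, fun t => (norm_comp C t).symm⟩,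
    (J.mM_rename C).symm⟩

theorem derived_NN_zero : derivedSet (NN 0) ⊆ NN 2 := by
  refine (derivedSet_mono _ _ NN_zero).trans ?_
  rw [derivedSet_union]
  refine union_subset (NN_derived 1) ?_
  intro x hx
  exfalso
  rw [mem_derivedSet, accPt_iff_frequently] at hx
  obtain ⟨y, hy1, hy2⟩ := hx.exists
  rw [mem_singleton_iff] at hy2
  subst hy2
  have hne : ∀ᶠ y in 𝓝 x, y ≠ 1 := isOpen_ne.mem_nhds (Ne.symm hy1)
  obtain ⟨z, ⟨-, hz⟩, hz2⟩ := (hx.and_eventually hne).exists
  exact hz2 hz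

theorem NR_derived (j : ℕ) : derivedSet^[j + 1] NR ⊆ NN (j + 2) := by
  induction j with
  | zero => exact (derivedSet_mono _ _ NR_subset).trans derived_NN_zero
  | succ j ih =>
    rw [Function.iterate_succ_apply']
    exact (derivedSet_mono _ _ ih).trans (NN_derived (j + 2))

theorem NN_large (B : ℝ) : ∃ m : ℕ, ∀ x ∈ NN m, B ≤ x := by
  obtain ⟨m₀, hm₀⟩ := dim_bound (Real.log (max B 1))
  refine ⟨m₀ + 1, ?_⟩
  rintro x ⟨k, C, hC, hr, hj, rfl⟩
  by_contra hlt
  push Not at hlt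
  have hpos : 0 < mM C := lt_of_lt_of_le one_pos (one_le_mM C hC)
  have h1 := (hm₀ (k + 1) _ _ (J.rename_ne_zero hC) (comp_ne_zero hC) (relPrime_comp hC hr) (by
    rw [mx_comp]
    exact Real.log_le_log hpos (hlt.le.trans (le_max_left _ _)))).2
  have h2 := dimJ_comp C hC
  omega

end

end Pool.Agent.H887R3.LW
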