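import Pool.Agent.H887R3.LW.MV13

/-!
# Part 14: the Mahler measures of polynomials `F + u G`
-/

set_option autoImplicit false

namespace Pool.Agent.H887R3.LW

open Filter MeasureTheory Topology Set
open Pool.Agent.H261R2.CM

noncomputable section

/-- the product of `G` with the new variable -/
def xren {k : ℕ} (G : MvPolynomial (Fin k) ℤ) : MvPolynomial (Fin (k + 1)) ℤ :=
  MvPolynomial.X 0 * MvPolynomial.rename Fin.succ G

/-- the polynomial `F + u G`, where `u` is the variable number `0` -/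
def lin {k : ℕ} (F G : MvPolynomial (Fin k) ℤ) : MvPolynomial (Fin (k + 1)) ℤ :=
  MvPolynomial.rename Fin.succ F + MvPolynomial.X 0 * MvPolynomial.rename Fin.succ G

theorem xren_ne_zero {k : ℕ} {G : MvPolynomial (Fin k) ℤ} (hG : G ≠ 0) : xren G ≠ 0 :=
  mul_ne_zero (MvPolynomial.X_ne_zero 0) (J.rename_ne_zero hG)

theorem relPrime_xren {k : ℕ} {F G : MvPolynomial (Fin k) ℤ} (hF : F ≠ 0)
    (h : IsRelPrime F G) : IsRelPrime (MvPolynomial.rename Fin.succ F) (xren G) := by
  unfold xren
  refine IsRelPrime.mul_right ?_ (J.relPrime_rename hF h)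
  have hX : Irreducible (MvPolynomial.X (0 : Fin (k + 1)) : MvPolynomial (Fin (k + 1)) ℤ) :=
    MvPolynomial.X_prime.irreducible
  refine IsRelPrime.symm ?_
  rw [hX.isRelPrime_iff_not_dvd]
  intro hdvd
  have h1 := J.degreeOf_zero_of_dvd (J.rename_ne_zero hF) hdvd 0 (J.degreeOf_zero_rename F)
  rw [MvPolynomial.degreeOf_X, if_pos rfl] at h1
  exact one_ne_zero h1

theorem norm_xren {k : ℕ} (G : MvPolynomial (Fin k) ℤ) (t : Fin (k + 1) → ℝ) :
    ‖tv (xren G) t‖ = ‖tv (MvPolynomial.rename Fin.succ G) t‖ := by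
  unfold xren
  rw [J.norm_tv_mul, J.tv_X, J.norm_zz, one_mul]

theorem mM_xren {k : ℕ} (G : MvPolynomial (Fin k) ℤ) : mM (xren G) = mM G := by
  rw [J.mM_congr (norm_xren G), J.mM_rename]

theorem mx_xren {k : ℕ} (F G : MvPolynomial (Fin k) ℤ) :
    mx (MvPolynomial.rename Fin.succ F) (xren G) = mx F G := by
  have h1 : mx (MvPolynomial.rename Fin.succ F) (xren G) =
      ∫ t in Set.Icc (0 : Fin (k + 1) → ℝ) 1,
        (fun y : Fin k → ℝ => Real.log (max ‖tv F y‖ ‖tv G y‖)) (Fin.removeNth 0 t) := by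
    unfold mx
    refine integral_congr_ae (Eventually.of_forall fun t => ?_)
    simp only
    rw [norm_xren, J.tv_rename, J.tv_rename]
    rfl
  rw [h1]
  exact K8.integral_tail 0 (fun y : Fin k → ℝ => Real.log (max ‖tv F y‖ ‖tv G y‖))

theorem lin_ne_zero {k : ℕ} {F : MvPolynomial (Fin k) ℤ} (hF : F ≠ 0)
    (G : MvPolynomial (Fin k) ℤ) : lin F G ≠ 0 := by
  obtain ⟨s, hs⟩ := MvPolynomial.support_nonempty.2 hF
  intro h
  have h1 : (lin F G).coeff (Finsupp.mapDomain Fin.succ s) = F.coeff s := by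
    unfold lin
    rw [MvPolynomial.coeff_add, MvPolynomial.coeff_rename_mapDomain _ (Fin.succ_injective k),
      MvPolynomial.coeff_X_mul', if_neg, add_zero]
    rw [Finsupp.mem_support_iff, not_not, Finsupp.mapDomain_of_notMem_range]
    rintro ⟨i, hi⟩
    exact Fin.succ_ne_zero i hi
  rw [h, MvPolynomial.coeff_zero] at h1
  exact (MvPolynomial.mem_support_iff.1 hs) h1.symm

theorem jensen (a b : ℂ) :
    ∫ w in Set.Icc (0:ℝ) 1, Real.log ‖a + ez w * b‖ = Real.log (max ‖a‖ ‖b‖) := by
  by_cases hb : b = 0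
  · subst hb
    simp only [mul_zero, add_zero, norm_zero]
    rw [max_eq_left (norm_nonneg a), setIntegral_const, measureReal_def, Real.volume_Icc]
    simp
  · have h1 := K8.log_mahler (Polynomial.C b * Polynomial.X + Polynomial.C a)
    rw [Polynomial.mahlerMeasure_C_mul_X_add_C hb, max_comm] at h1
    rw [h1]
    refine integral_congr_ae (Eventually.of_forall fun w => ?_)
    simp only [Polynomial.eval_add, Polynomial.eval_mul, Polynomial.eval_C, Polynomial.eval_X]
    congr 2
    ring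

theorem mM_lin {k : ℕ} (F G : MvPolynomial (Fin k) ℤ) (hF : F ≠ 0) :
    mM (lin F G) = Real.exp (mx F G) := by
  unfold mM
  congr 1
  obtain ⟨-, h2⟩ := K8.cube_slice 0 (fun x => Real.log ‖tv (lin F G) x‖)
    (F_integrable (lin_ne_zero hF G))
  rw [← h2]
  have h3 : ∀ x : Fin (k + 1) → ℝ,
      (∫ w in Set.Icc (0 : ℝ) 1, Real.log ‖tv (lin F G) (Function.update x 0 w)‖) =
      (fun y : Fin k → ℝ => Real.log (max ‖tv F y‖ ‖tv G y‖)) (Fin.removeNth 0 x) := by
    intro x
    have h4 : ∀ w : ℝ, tv (lin F G) (Function.update x 0 w) =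
        tv F (fun j => x j.succ) + ez w * tv G (fun j => x j.succ) := by
      intro w
      unfold lin
      rw [J.tv_add, J.tv_mul, J.tv_X, J.tv_rename, J.tv_rename]
      have h5 : (fun j : Fin k => Function.update x 0 w j.succ) = fun j => x j.succ := by
        funext j
        rw [Function.update_of_ne (Fin.succ_ne_zero j)]
      rw [h5]
      unfold J.zz ez
      rw [Function.update_self]
    simp only [h4]
    rw [jensen]
    rfl
  simp only [h3]
  rw [K8.integral_tail 0 (fun y : Fin k → ℝ => Real.log (max ‖tv F y‖ ‖tv G y‖))]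
  rfl

end

end Pool.Agent.H887R3.LW
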