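import Pool.Agent.H887R3.LW.MV14

/-!
# Part 15: the dimension filtration of the set of the Mahler measures of polynomials `F + u G`
-/

set_option autoImplicit false

namespace Pool.Agent.H887R3.LW

open Filter MeasureTheory Topology Set
open Pool.Agent.H261R2.CM

noncomputable section

theorem support_lin_le {k : ℕ} (F G : MvPolynomial (Fin k) ℤ) :
    nD (lin F G) ≤ dimJ (MvPolynomial.rename Fin.succ F) (xren G) := by
  classical
  unfold nD dimJ
  refine Submodule.finrank_mono (vectorSpan_mono ℚ ?_)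
  unfold vecs
  refine Set.image_mono ?_
  intro s hs
  have h1 := Finset.mem_coe.1 hs
  unfold lin at h1
  exact Finset.mem_coe.2 (MvPolynomial.support_add h1)

theorem mem_lin_left {k : ℕ} (F G : MvPolynomial (Fin k) ℤ) (s : Fin k →₀ ℕ)
    (hs : s ∈ F.support) : Finsupp.mapDomain Fin.succ s ∈ (lin F G).support := by
  rw [MvPolynomial.mem_support_iff] at hs ⊢
  unfold lin
  rw [MvPolynomial.coeff_add, MvPolynomial.coeff_rename_mapDomain _ (Fin.succ_injective k),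
    MvPolynomial.coeff_X_mul', if_neg, add_zero]
  · exact hs
  · rw [Finsupp.mem_support_iff, not_not, Finsupp.mapDomain_of_notMem_range]
    rintro ⟨i, hi⟩
    exact Fin.succ_ne_zero i hi

theorem mem_lin_right {k : ℕ} (F G : MvPolynomial (Fin k) ℤ) (s : Fin k →₀ ℕ)
    (hs : s ∈ G.support) :
    Finsupp.single 0 1 + Finsupp.mapDomain Fin.succ s ∈ (lin F G).support := by
  rw [MvPolynomial.mem_support_iff] at hs ⊢
  unfold lin
  have h1 : (MvPolynomial.rename Fin.succ F).coeff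
      (Finsupp.single 0 1 + Finsupp.mapDomain Fin.succ s) = 0 := by
    rw [MvPolynomial.coeff_rename_eq_zero]
    intro u hu
    exfalso
    have h2 := DFunLike.congr_fun hu 0
    rw [Finsupp.mapDomain_of_notMem_range, Finsupp.add_apply, Finsupp.single_eq_same] at h2
    · omega
    · rintro ⟨i, hi⟩
      exact Fin.succ_ne_zero i hi
  rw [MvPolynomial.coeff_add, h1, zero_add, MvPolynomial.coeff_X_mul,
    MvPolynomial.coeff_rename_mapDomain _ (Fin.succ_injective k)]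
  exact hs

theorem dimJ_le_lin {k : ℕ} (F G : MvPolynomial (Fin k) ℤ) : dimJ F G ≤ nD (lin F G) := by
  classical
  unfold nD dimJ
  set T : (Fin (k + 1) → ℚ) →ₗ[ℚ] (Fin k → ℚ) := LinearMap.funLeft ℚ ℚ Fin.succ with hT
  have hle : vectorSpan ℚ (vecs ℚ (F.support ∪ G.support)) ≤ Submodule.map T
      (vectorSpan ℚ (vecs ℚ (lin F G).support)) := by
    have hkey : ∀ s ∈ F.support ∪ G.support, ∃ v ∈ vecs ℚ (lin F G).support,
        T v = fun i => ((s i : ℕ) : ℚ) := by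
      intro s hs
      rcases Finset.mem_union.1 hs with h | h
      · refine ⟨_, ⟨_, mem_lin_left F G s h, rfl⟩, ?_⟩
        funext i
        simp only [hT, LinearMap.funLeft_apply]
        rw [Finsupp.mapDomain_apply (Fin.succ_injective k)]
      · refine ⟨_, ⟨_, mem_lin_right F G s h, rfl⟩, ?_⟩
        funext i
        simp only [hT, LinearMap.funLeft_apply]
        rw [Finsupp.add_apply, Finsupp.mapDomain_apply (Fin.succ_injective k),
          Finsupp.single_eq_of_ne (Fin.succ_ne_zero i), zero_add]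
    unfold vectorSpan
    rw [Submodule.span_le]
    rintro _ ⟨_, ⟨s, hs, rfl⟩, _, ⟨t, ht, rfl⟩, rfl⟩
    obtain ⟨v, hv, hv'⟩ := hkey s hs
    obtain ⟨w, hw, hw'⟩ := hkey t ht
    refine ⟨v -ᵥ w, Submodule.subset_span ⟨v, hv, w, hw, rfl⟩, ?_⟩
    change T (v - w) = _
    rw [map_sub, hv', hw']
    rfl
  exact (Submodule.finrank_mono hle).trans (Submodule.finrank_map_le _ _)

/-- the triples of the measures of `F`, `G` and `F + u G` -/
def TT (j : ℕ) : Set (ℝ × ℝ × ℝ) :=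
  {x | ∃ k : ℕ, ∃ F G : MvPolynomial (Fin k) ℤ, F ≠ 0 ∧ G ≠ 0 ∧ IsRelPrime F G ∧
    j ≤ nD (lin F G) ∧ x = (mM F, mM G, mM (lin F G))}

/-- the measures of the polynomials `F + u G` -/
def SS (j : ℕ) : Set ℝ :=
  {x | ∃ k : ℕ, ∃ F G : MvPolynomial (Fin k) ℤ, F ≠ 0 ∧ G ≠ 0 ∧ IsRelPrime F G ∧
    j ≤ nD (lin F G) ∧ x = mM (lin F G)}

/-- the limits of the pairs of bounded height, in terms of the polynomials `F + u G` -/
theorem lin_limit (j : ℕ) (d : ℕ → ℕ) (F G : ∀ n, MvPolynomial (Fin (d n)) ℤ)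
    (hF : ∀ n, F n ≠ 0) (hG : ∀ n, G n ≠ 0) (hFG : ∀ n, IsRelPrime (F n) (G n))
    (hj : ∀ n, j ≤ nD (lin (F n) (G n))) (K : ℝ) (hK : ∀ n, mM (lin (F n) (G n)) ≤ K) :
    ∃ (k : ℕ) (C D : MvPolynomial (Fin k) ℤ), C ≠ 0 ∧ D ≠ 0 ∧ IsRelPrime C D ∧
      j ≤ nD (lin C D) ∧
      Tendsto (fun n => mM (F n)) (hyperfilter ℕ : Filter ℕ) (𝓝 (mM C)) ∧
      Tendsto (fun n => mM (G n)) (hyperfilter ℕ : Filter ℕ) (𝓝 (mM D)) ∧
      Tendsto (fun n => mM (lin (F n) (G n))) (hyperfilter ℕ : Filter ℕ) (𝓝 (mM (lin C D))) ∧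
      (j + 1 ≤ nD (lin C D) ∨ ∀ᶠ n in (hyperfilter ℕ : Filter ℕ),
        mM (F n) = mM C ∧ mM (G n) = mM D ∧ mM (lin (F n) (G n)) = mM (lin C D)) := by
  have hlin : ∀ n, mM (lin (F n) (G n)) = Real.exp (mx (F n) (G n)) := fun n =>
    mM_lin _ _ (hF n)
  have hpos : ∀ n, 0 < mM (lin (F n) (G n)) := fun n => by rw [hlin]; exact Real.exp_pos _
  obtain ⟨k, C, D, hC, hD, hCD, hl1, hl2, hl3, hk, hev⟩ := struct_full (fun n => d n + 1)
    (fun n => MvPolynomial.rename Fin.succ (F n)) (fun n => xren (G n))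
    (fun n => J.rename_ne_zero (hF n)) (fun n => xren_ne_zero (hG n))
    (fun n => relPrime_xren (hF n) (hFG n)) (Real.log K)
    (fun n => by
      rw [mx_xren]
      have h1 := hK n
      rw [← Real.log_exp (mx (F n) (G n)), ← hlin n]
      exact Real.log_le_log (hpos n) h1)
  simp only [J.mM_rename] at hl1
  simp only [mM_xren] at hl3
  simp only [mx_xren] at hl2
  have hCDl : mM (lin C D) = Real.exp (mx C D) := mM_lin C D hC
  have hl4 : Tendsto (fun n => mM (lin (F n) (G n))) (hyperfilter ℕ : Filter ℕ)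
      (𝓝 (mM (lin C D))) := by
    rw [hCDl]
    simp only [hlin]
    exact (Real.continuous_exp.tendsto _).comp hl2
  have hdim := dimJ_le_lin C D
  obtain ⟨n, ⟨-, hn2, -⟩, -⟩ := hev.exists
  have h1 := support_lin_le (F n) (G n)
  have h2 := hj n
  refine ⟨k, C, D, hC, hD, hCD, by omega, hl1, hl3, hl4, ?_⟩
  by_cases hcase : j + 1 ≤ nD (lin C D)
  · exact Or.inl hcase
  · right
    filter_upwards [hev] with n hn
    obtain ⟨⟨-, hn2, hn3⟩, -⟩ := hn
    have h3 := support_lin_le (F n) (G n)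
    have h4 := hj n
    obtain ⟨h5, h6, h7⟩ := hn3 (by omega)
    rw [J.mM_rename] at h5
    rw [mM_xren] at h6
    rw [mx_xren] at h7
    exact ⟨h5, h6, by rw [hlin, hCDl, h7]⟩

theorem TT_limit (j : ℕ) (u : ℕ → ℝ × ℝ × ℝ) (x : ℝ × ℝ × ℝ) (hu : ∀ n, u n ∈ TT j)
    (hlim : Tendsto u atTop (𝓝 x)) :
    x ∈ TT j ∧ ((∀ n, u n ≠ x) → x ∈ TT (j + 1)) := by
  choose d F G hF hG hFG hj hux using hu
  have hlim1 : Tendsto (fun n => mM (F n)) atTop (𝓝 x.1) :=
    ((continuous_fst.tendsto x).comp hlim).congr fun n => by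
      simp only [Function.comp_apply, hux n]
  have hlim2 : Tendsto (fun n => mM (G n)) atTop (𝓝 x.2.1) :=
    (((continuous_fst.comp continuous_snd).tendsto x).comp hlim).congr fun n => by
      simp only [Function.comp_apply, hux n]
  have hlim3 : Tendsto (fun n => mM (lin (F n) (G n))) atTop (𝓝 x.2.2) :=
    (((continuous_snd.comp continuous_snd).tendsto x).comp hlim).congr fun n => by
      simp only [Function.comp_apply, hux n]
  obtain ⟨B, hB⟩ := hlim3.bddAbove_range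
  obtain ⟨k, C, D, hC, hD, hCD, hdim, h1, h2, h3, h4⟩ := lin_limit j d F G hF hG hFG hj B
    (fun n => hB ⟨n, rfl⟩)
  have e1 := tendsto_nhds_unique (hlim1.mono_left I2_hyper_le) h1
  have e2 := tendsto_nhds_unique (hlim2.mono_left I2_hyper_le) h2
  have e3 := tendsto_nhds_unique (hlim3.mono_left I2_hyper_le) h3
  have hx : x = (mM C, mM D, mM (lin C D)) := by
    rw [← e1, ← e2, ← e3]
  refine ⟨⟨k, C, D, hC, hD, hCD, hdim, hx⟩, fun hne => ?_⟩
  rcases h4 with h4 | h4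
  · exact ⟨k, C, D, hC, hD, hCD, h4, hx⟩
  · exfalso
    obtain ⟨n, hn1, hn2, hn3⟩ := h4.exists
    apply hne n
    rw [hux n, hx, hn1, hn2, hn3]

theorem SS_limit (j : ℕ) (u : ℕ → ℝ) (x : ℝ) (hu : ∀ n, u n ∈ SS j)
    (hlim : Tendsto u atTop (𝓝 x)) :
    x ∈ SS j ∧ ((∀ n, u n ≠ x) → x ∈ SS (j + 1)) := by
  choose d F G hF hG hFG hj hux using hu
  have hlim3 : Tendsto (fun n => mM (lin (F n) (G n))) atTop (𝓝 x) :=
    hlim.congr fun n => hux n
  obtain ⟨B, hB⟩ := hlim3.bddAbove_range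
  obtain ⟨k, C, D, hC, hD, hCD, hdim, h1, h2, h3, h4⟩ := lin_limit j d F G hF hG hFG hj B
    (fun n => hB ⟨n, rfl⟩)
  have hx := tendsto_nhds_unique (hlim3.mono_left I2_hyper_le) h3
  refine ⟨⟨k, C, D, hC, hD, hCD, hdim, hx⟩, fun hne => ?_⟩
  rcases h4 with h4 | h4
  · exact ⟨k, C, D, hC, hD, hCD, h4, hx⟩
  · exfalso
    obtain ⟨n, hn1, hn2, hn3⟩ := h4.exists
    apply hne n
    rw [hux n, hx, hn3]

theorem TT_closed (j : ℕ) : IsClosed (TT j) := by
  refine isClosed_of_closure_subset fun x hx => ?_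
  rw [mem_closure_iff_seq_limit] at hx
  obtain ⟨u, hu, hlim⟩ := hx
  exact (TT_limit j u x hu hlim).1

theorem SS_closed (j : ℕ) : IsClosed (SS j) := by
  refine isClosed_of_closure_subset fun x hx => ?_
  rw [mem_closure_iff_seq_limit] at hx
  obtain ⟨u, hu, hlim⟩ := hx
  exact (SS_limit j u x hu hlim).1

theorem TT_derived (j : ℕ) : derivedSet (TT j) ⊆ TT (j + 1) := by
  intro x hx
  rw [mem_derivedSet, accPt_principal_iff_clusterPt, ← mem_closure_iff_clusterPt,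
    mem_closure_iff_seq_limit] at hx
  obtain ⟨u, hu, hlim⟩ := hx
  exact (TT_limit j u x (fun n => (hu n).1) hlim).2 fun n h => (hu n).2 h

theorem SS_derived (j : ℕ) : derivedSet (SS j) ⊆ SS (j + 1) := by
  intro x hx
  rw [mem_derivedSet, accPt_principal_iff_clusterPt, ← mem_closure_iff_clusterPt,
    mem_closure_iff_seq_limit] at hx
  obtain ⟨u, hu, hlim⟩ := hx
  exact (SS_limit j u x (fun n => (hu n).1) hlim).2 fun n h => (hu n).2 h

theorem lin_large (B : ℝ) : ∃ m : ℕ, ∀ (k : ℕ) (F G : MvPolynomial (Fin k) ℤ), F ≠ 0 → G ≠ 0 →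
    IsRelPrime F G → m ≤ nD (lin F G) → B ≤ mM (lin F G) := by
  obtain ⟨m₀, hm₀⟩ := dim_bound (Real.log (max B 1))
  refine ⟨m₀ + 1, fun k F G hF hG hFG hj => ?_⟩
  by_contra hlt
  push Not at hlt
  have hlin : mM (lin F G) = Real.exp (mx F G) := mM_lin _ _ hF
  have h1 := (hm₀ (k + 1) _ _ (J.rename_ne_zero hF) (xren_ne_zero hG) (relPrime_xren hF hFG) (by
    rw [mx_xren, ← Real.log_exp (mx F G), ← hlin]
    exact Real.log_le_log (by rw [hlin]; exact Real.exp_pos _)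
      (hlt.le.trans (le_max_left _ _)))).2
  have h2 := support_lin_le F G
  omega

theorem NR_subset_SS : NR ⊆ SS 0 := by
  rw [NR_eq]
  rintro x ⟨k, C, hC, hr, -, rfl⟩
  refine ⟨k, C, recip C, hC, J.recip_ne_zero hC, hr, Nat.zero_le _, ?_⟩
  rw [mM_lin _ _ hC, mx_recip, Real.exp_log (lt_of_lt_of_le one_pos (one_le_mM C hC))]

end

end Pool.Agent.H887R3.LW
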