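import Pool.Agent.H887R3.LW.MV15

/-!
# Part 16: the irreducible polynomials of degree one in a variable are the `F + u G`
-/

set_option autoImplicit false

namespace Pool.Agent.H887R3.LW

open Filter MeasureTheory Topology Set
open Pool.Agent.H261R2.CM

noncomputable section

theorem fse_rename {k : ℕ} (F : MvPolynomial (Fin k) ℤ) :
    MvPolynomial.finSuccEquiv ℤ k (MvPolynomial.rename Fin.succ F) = Polynomial.C F := by
  induction F using MvPolynomial.induction_on with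
  | C a =>
    rw [MvPolynomial.rename_C]
    have := congrFun (congrArg DFunLike.coe (MvPolynomial.finSuccEquiv_comp_C_eq_C (R := ℤ) k)) a
    have h2 := congrArg (MvPolynomial.finSuccEquiv ℤ k) this
    rw [← h2]
    simp
  | add p q hp hq => rw [map_add, map_add, hp, hq, Polynomial.C_add]
  | mul_X p i hp =>
    rw [map_mul, map_mul, hp, MvPolynomial.rename_X, MvPolynomial.finSuccEquiv_X_succ,
      Polynomial.C_mul]

theorem fse_lin {k : ℕ} (F G : MvPolynomial (Fin k) ℤ) :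
    MvPolynomial.finSuccEquiv ℤ k (lin F G) =
      Polynomial.C G * Polynomial.X + Polynomial.C F := by
  unfold lin
  rw [map_add, map_mul, fse_rename, fse_rename, MvPolynomial.finSuccEquiv_X_zero]
  ring

theorem irreducible_lin {k : ℕ} (F G : MvPolynomial (Fin k) ℤ) (hG : G ≠ 0)
    (h : IsRelPrime F G) : Irreducible (lin F G) := by
  rw [← MulEquiv.irreducible_iff (MvPolynomial.finSuccEquiv ℤ k), fse_lin]
  exact Polynomial.irreducible_C_mul_X_add_C hG h.symm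

theorem degreeOf_lin {k : ℕ} (F G : MvPolynomial (Fin k) ℤ) (hG : G ≠ 0) :
    (lin F G).degreeOf 0 = 1 := by
  rw [← MvPolynomial.natDegree_finSuccEquiv, fse_lin]
  exact Polynomial.natDegree_linear hG

theorem not_X_dvd_lin {k : ℕ} (F G : MvPolynomial (Fin k) ℤ) (hF : F ≠ 0) :
    ¬ MvPolynomial.X 0 ∣ lin F G := by
  intro h
  have h1 := map_dvd (MvPolynomial.finSuccEquiv ℤ k) h
  rw [fse_lin, MvPolynomial.finSuccEquiv_X_zero, Polynomial.X_dvd_iff] at h1
  apply hF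
  simpa using h1

theorem eq_lin {k : ℕ} (P : MvPolynomial (Fin (k + 1)) ℤ) (hP : Irreducible P)
    (hdeg : P.degreeOf 0 = 1) (hX : ¬ MvPolynomial.X 0 ∣ P) :
    ∃ F G : MvPolynomial (Fin k) ℤ, F ≠ 0 ∧ G ≠ 0 ∧ IsRelPrime F G ∧ P = lin F G := by
  have h1 : (MvPolynomial.finSuccEquiv ℤ k P).natDegree = 1 := by
    rw [MvPolynomial.natDegree_finSuccEquiv, hdeg]
  obtain ⟨G, F, hGF⟩ := Polynomial.exists_eq_X_add_C_of_natDegree_le_one h1.le
  have hPl : P = lin F G := by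
    apply (MvPolynomial.finSuccEquiv ℤ k).injective
    rw [fse_lin, hGF]
  have hG : G ≠ 0 := by
    rintro rfl
    rw [hGF] at h1
    simp at h1
  have hF : F ≠ 0 := by
    rintro rfl
    apply hX
    rw [hPl]
    unfold lin
    rw [map_zero, zero_add]
    exact dvd_mul_right _ _
  refine ⟨F, G, hF, hG, ?_, hPl⟩
  intro Q hQF hQG
  have hQP : MvPolynomial.rename Fin.succ Q ∣ P := by
    rw [hPl]
    unfold lin
    exact dvd_add (map_dvd (MvPolynomial.rename Fin.succ) hQF)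
      ((map_dvd (MvPolynomial.rename Fin.succ) hQG).mul_left _)
  obtain ⟨R, hR⟩ := hQP
  rcases hP.isUnit_or_isUnit hR with h | h
  · have h2 : IsUnit (MvPolynomial.finSuccEquiv ℤ k (MvPolynomial.rename Fin.succ Q)) :=
      h.map (MvPolynomial.finSuccEquiv ℤ k)
    rw [fse_rename, Polynomial.isUnit_C] at h2
    exact h2
  · exfalso
    have hQ0 : MvPolynomial.rename Fin.succ Q ≠ 0 := by
      intro h0
      rw [h0, zero_mul] at hR
      exact hP.ne_zero hR
    have h3 : P.degreeOf 0 = (MvPolynomial.rename Fin.succ Q).degreeOf 0 + R.degreeOf 0 := by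
      rw [hR, MvPolynomial.degreeOf_mul_eq hQ0 h.ne_zero]
    rw [J.degreeOf_zero_rename, degreeOf_unit h, hdeg] at h3
    omega

/-- the measures of the irreducible polynomials of degree one in the variable number `0` -/
def SI (j : ℕ) : Set ℝ :=
  {x | ∃ k : ℕ, ∃ P : MvPolynomial (Fin (k + 1)) ℤ, Irreducible P ∧ P.degreeOf 0 = 1 ∧
    ¬ MvPolynomial.X 0 ∣ P ∧ j ≤ nD P ∧ x = mM P}

theorem SI_eq (j : ℕ) : SI j = SS j := by
  ext x
  constructor
  · rintro ⟨k, P, hP, hdeg, hX, hj, rfl⟩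
    obtain ⟨F, G, hF, hG, hFG, rfl⟩ := eq_lin P hP hdeg hX
    exact ⟨k, F, G, hF, hG, hFG, hj, rfl⟩
  · rintro ⟨k, F, G, hF, hG, hFG, hj, rfl⟩
    exact ⟨k, lin F G, irreducible_lin F G hG hFG, degreeOf_lin F G hG, not_X_dvd_lin F G hF,
      hj, rfl⟩

theorem one_le_lin {k : ℕ} (F G : MvPolynomial (Fin k) ℤ) (hF : F ≠ 0) (hG : G ≠ 0) :
    1 ≤ nD (lin F G) := by
  classical
  obtain ⟨s, hs⟩ := MvPolynomial.support_nonempty.2 hF
  obtain ⟨t, ht⟩ := MvPolynomial.support_nonempty.2 hG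
  have h1 := mem_lin_left F G s hs
  have h2 := mem_lin_right F G t ht
  by_contra h
  have h0 : nD (lin F G) = 0 := by omega
  unfold nD at h0
  rw [Submodule.finrank_eq_zero] at h0
  have h3 := vsub_mem_vectorSpan ℚ (s := vecs ℚ (lin F G).support) ⟨_, h1, rfl⟩ ⟨_, h2, rfl⟩
  rw [h0, Submodule.mem_bot] at h3
  have h4 := congrFun h3 0
  change (((Finsupp.mapDomain Fin.succ s : Fin (k + 1) →₀ ℕ) 0 : ℕ) : ℚ) -
    (((Finsupp.single 0 1 + Finsupp.mapDomain Fin.succ t : Fin (k + 1) →₀ ℕ) 0 : ℕ) : ℚ) = 0 at h4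
  have h5 : ∀ u : Fin k →₀ ℕ, (Finsupp.mapDomain Fin.succ u) (0 : Fin (k + 1)) = 0 := by
    intro u
    rw [Finsupp.mapDomain_of_notMem_range]
    rintro ⟨i, hi⟩
    exact Fin.succ_ne_zero i hi
  rw [Finsupp.add_apply, h5, h5, Finsupp.single_eq_same] at h4
  norm_num at h4

theorem SI_closed (j : ℕ) : IsClosed (SI j) := by
  rw [SI_eq]
  exact SS_closed j

theorem SI_derived (j : ℕ) : derivedSet (SI j) ⊆ SI (j + 1) := by
  rw [SI_eq, SI_eq]
  exact SS_derived j

theorem SI_one : SI 0 = SI 1 := by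
  rw [SI_eq, SI_eq]
  ext x
  constructor
  · rintro ⟨k, F, G, hF, hG, hFG, -, rfl⟩
    exact ⟨k, F, G, hF, hG, hFG, one_le_lin F G hF hG, rfl⟩
  · rintro ⟨k, F, G, hF, hG, hFG, -, rfl⟩
    exact ⟨k, F, G, hF, hG, hFG, Nat.zero_le _, rfl⟩

theorem SI_iterate (j : ℕ) : derivedSet^[j] (SI 0) ⊆ SI (j + 1) := by
  induction j with
  | zero => exact SI_one.subset
  | succ j ih =>
    rw [Function.iterate_succ_apply']
    exact (derivedSet_mono _ _ ih).trans (SI_derived (j + 1))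

theorem SI_large (B : ℝ) : ∃ m : ℕ, ∀ x ∈ SI m, B ≤ x := by
  obtain ⟨m, hm⟩ := lin_large B
  refine ⟨m, fun x hx => ?_⟩
  rw [SI_eq] at hx
  obtain ⟨k, F, G, hF, hG, hFG, hj, rfl⟩ := hx
  exact hm k F G hF hG hFG hj

theorem TT_large (B : ℝ) : ∃ m : ℕ, ∀ x ∈ TT m, B ≤ x.2.2 := by
  obtain ⟨m, hm⟩ := lin_large B
  refine ⟨m, fun x hx => ?_⟩
  obtain ⟨k, F, G, hF, hG, hFG, hj, rfl⟩ := hx
  exact hm k F G hF hG hFG hj

theorem NR_subset_SI : NR ⊆ SI 0 := by
  rw [SI_eq]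
  exact NR_subset_SS

end

end Pool.Agent.H887R3.LW
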