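import Pool.Agent.H887R3.LW.MV16

/-!
# Part 17: the filtration of the sets of measures with a companion of bounded height
-/

set_option autoImplicit false

namespace Pool.Agent.H887R3.LW

open Filter MeasureTheory Topology Set
open Pool.Agent.H261R2.CM

noncomputable section

/-- the measures of the polynomials `F` having a coprime companion `G` with `M(F + u G) ≤ K` and
`F + u G` of Newton dimension at least `j` -/
def LT (K : ℝ) (j : ℕ) : Set ℝ :=
  {x | ∃ k : ℕ, ∃ F G : MvPolynomial (Fin k) ℤ, F ≠ 0 ∧ G ≠ 0 ∧ IsRelPrime F G ∧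
    mM (lin F G) ≤ K ∧ j ≤ nD (lin F G) ∧ x = mM F}

theorem LT_limit (K : ℝ) (j : ℕ) (u : ℕ → ℝ) (x : ℝ) (hu : ∀ n, u n ∈ LT K j)
    (hlim : Tendsto u atTop (𝓝 x)) :
    x ∈ LT K j ∧ ((∀ n, u n ≠ x) → x ∈ LT K (j + 1)) := by
  choose d F G hF hG hFG hK hj hux using hu
  have hlim3 : Tendsto (fun n => mM (F n)) atTop (𝓝 x) := hlim.congr fun n => hux n
  obtain ⟨k, C, D, hC, hD, hCD, hdim, h1, h2, h3, h4⟩ := lin_limit j d F G hF hG hFG hj K hK
  have hx := tendsto_nhds_unique (hlim3.mono_left I2_hyper_le) h1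
  have hle : mM (lin C D) ≤ K := le_of_tendsto h3 (Eventually.of_forall hK)
  refine ⟨⟨k, C, D, hC, hD, hCD, hle, hdim, hx⟩, fun hne => ?_⟩
  rcases h4 with h4 | h4
  · exact ⟨k, C, D, hC, hD, hCD, hle, h4, hx⟩
  · exfalso
    obtain ⟨n, hn1, hn2, hn3⟩ := h4.exists
    apply hne n
    rw [hux n, hx, hn1]

theorem LT_closed (K : ℝ) (j : ℕ) : IsClosed (LT K j) := by
  refine isClosed_of_closure_subset fun x hx => ?_
  rw [mem_closure_iff_seq_limit] at hx
  obtain ⟨u, hu, hlim⟩ := hx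
  exact (LT_limit K j u x hu hlim).1

theorem LT_derived (K : ℝ) (j : ℕ) : derivedSet (LT K j) ⊆ LT K (j + 1) := by
  intro x hx
  rw [mem_derivedSet, accPt_principal_iff_clusterPt, ← mem_closure_iff_clusterPt,
    mem_closure_iff_seq_limit] at hx
  obtain ⟨u, hu, hlim⟩ := hx
  exact (LT_limit K j u x (fun n => (hu n).1) hlim).2 fun n h => (hu n).2 h

theorem LT_one (K : ℝ) : LT K 0 ⊆ LT K 1 := by
  rintro x ⟨k, F, G, hF, hG, hFG, hK, -, rfl⟩
  exact ⟨k, F, G, hF, hG, hFG, hK, one_le_lin F G hF hG, rfl⟩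

theorem LT_iterate (K : ℝ) (j : ℕ) : derivedSet^[j] (LT K 0) ⊆ LT K (j + 1) := by
  induction j with
  | zero => exact LT_one K
  | succ j ih =>
    rw [Function.iterate_succ_apply']
    exact (derivedSet_mono _ _ ih).trans (LT_derived K (j + 1))

theorem LT_empty (K : ℝ) : ∃ m : ℕ, LT K m = ∅ := by
  obtain ⟨m, hm⟩ := lin_large (K + 1)
  refine ⟨m, ?_⟩
  rw [eq_empty_iff_forall_notMem]
  rintro x ⟨k, F, G, hF, hG, hFG, hK, hj, -⟩
  have := hm k F G hF hG hFG hj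
  linarith

theorem LT_exhaust {k : ℕ} (F : MvPolynomial (Fin k) ℤ) (hF : F ≠ 0) :
    ∃ K : ℝ, mM F ∈ LT K 0 :=
  ⟨mM (lin F 1), k, F, 1, hF, one_ne_zero, isRelPrime_one_right, le_rfl, Nat.zero_le _, rfl⟩

theorem TT_iterate (j : ℕ) : derivedSet^[j] (TT 0) ⊆ TT (j + 1) := by
  induction j with
  | zero =>
    rintro x ⟨k, F, G, hF, hG, hFG, -, rfl⟩
    exact ⟨k, F, G, hF, hG, hFG, one_le_lin F G hF hG, rfl⟩
  | succ j ih =>
    rw [Function.iterate_succ_apply']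
    exact (derivedSet_mono _ _ ih).trans (TT_derived (j + 1))

end

end Pool.Agent.H887R3.LW
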