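import Pool.Agent.H887R3.LW.MV11
import Pool.Agent.H261R2.CM.L2

/-!
# Part 18: sequences of one-variable polynomials whose measures avoid the sets `M(G)`
-/

set_option autoImplicit false

namespace Pool.Agent.H887R3.LW

open Filter MeasureTheory Topology Set
open Pool.Agent.H261R2.CM

noncomputable section

theorem MM_spec {k : ℕ} (e : Fin k → ℕ) (C : MvPolynomial (Fin k) ℤ) (h : spec e C ≠ 0) :
    Real.log (m1 (spec e C)) ∈ MM C := by
  have hA : ∀ t : Fin 1 → ℝ, tv C (fun j => ∑ i : Fin 1,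
      (((Matrix.of fun (_ : Fin 1) (j : Fin k) => (e j : ℤ)) : Matrix (Fin 1) (Fin k) ℤ) i j : ℝ) *
        t i) = ev1 (spec e C) (t 0) := by
    intro t
    rw [F_ev1]
    congr 1
    funext j
    simp [F_cv]
  refine ⟨1, Matrix.of fun _ j => (e j : ℤ), ?_, ?_⟩
  · obtain ⟨t, ht⟩ := (D_ae_ne (spec e C) h).exists
    refine ⟨fun _ => t, ?_⟩
    rw [hA]
    exact ht
  · have h1 := J.cube_split (k := 0) (fun s : ℝ => Real.log ‖ev1 (spec e C) s‖) (fun _ => 1)
    simp only [mul_one] at h1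
    rw [setIntegral_const, J.vol_cube, one_smul, mul_one] at h1
    simp only [hA]
    rw [D_log_m1, intervalIntegral.integral_of_le zero_le_one, ← integral_Icc_eq_integral_Ioc]
    exact h1.symm

/-- if the measures of the `f n` avoid the sets `M(G)`, then `∫ log⁺ |f n|` tends to infinity -/
theorem avoid (f : ℕ → Polynomial ℤ) (hf : ∀ n, f n ≠ 0)
    (hfin : ∀ (k : ℕ) (G : MvPolynomial (Fin k) ℤ), G ≠ 0 →
      {n : ℕ | Real.log (m1 (f n)) ∈ MM G}.Finite) :
    Tendsto (fun n => mx1 (f n) 1) atTop atTop := by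
  by_contra hcon
  rw [tendsto_atTop] at hcon
  push Not at hcon
  obtain ⟨K, hK⟩ := hcon
  obtain ⟨φ, hφ, hφK⟩ := extraction_of_frequently_atTop hK
  obtain ⟨k, e, C, D, hk, hC, hD, hCD, he, hrel, _, _⟩ := pairs_compact_general
    (fun n => f (φ n)) (fun _ => 1) (fun n => hf _) (fun _ => one_ne_zero)
    (fun n => isRelPrime_one_right) K (fun n => (hφK n).le)
  obtain ⟨Q, hQ, hQlim⟩ := limit_general C D hC hD hCD (hyperfilter ℕ) e he
    (fun n => f (φ n)) (fun _ => 1) (fun n => hf _)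
    (fun _ => one_ne_zero) (fun n => isRelPrime_one_right) hrel
  obtain ⟨c, hc, hgap⟩ := spec_gap D hD
  have hsmall : ∀ᶠ n in (hyperfilter ℕ : Filter ℕ), Real.log (m1 (Q n)) < Real.log c :=
    hQlim.eventually_lt_const (Real.log_pos hc)
  have hev : ∀ᶠ n in (hyperfilter ℕ : Filter ℕ), Real.log (m1 (f (φ n))) ∈ MM C := by
    filter_upwards [hQ, hsmall, spec_ne_zero _ e he C hC] with n h1 h3 h0
    obtain ⟨hQ0, hCn, hDn⟩ := h1
    rw [mul_one] at hDn
    have hQ1 : 1 ≤ m1 (Q n) := I1_one_le_m1 hQ0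
    have hm : m1 (Q n) = 1 := by
      by_contra hne
      have h4 : 1 < m1 (spec (e n) D) := by
        rw [hDn]
        exact lt_of_le_of_ne hQ1 (Ne.symm hne)
      have h5 := hgap (e n) h4
      rw [hDn] at h5
      have h6 := Real.log_le_log (by linarith) h5
      linarith
    have h7 : m1 (f (φ n)) = m1 (spec (e n) C) := by
      rw [hCn, I1_m1_mul, hm, one_mul]
    rw [h7]
    exact MM_spec (e n) C h0
  have hfinite : {n : ℕ | Real.log (m1 (f (φ n))) ∈ MM C}.Finite := by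
    have h1 := (hfin k C hC).preimage (f := φ) hφ.injective.injOn
    exact h1
  exact (Filter.notMem_hyperfilter_of_finite hfinite) hev

/-- the same for the integrals of `|f n| ^ p` -/
theorem avoid_lp (f : ℕ → Polynomial ℤ) (hf : ∀ n, f n ≠ 0)
    (hfin : ∀ (k : ℕ) (G : MvPolynomial (Fin k) ℤ), G ≠ 0 →
      {n : ℕ | Real.log (m1 (f n)) ∈ MM G}.Finite) (p : ℝ) (hp : 0 < p) :
    Tendsto (fun n => ∫ t in (0:ℝ)..1, ‖ev1 (f n) t‖ ^ p) atTop atTop := by
  have h1 := (avoid f hf hfin).const_mul_atTop hp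
  refine tendsto_atTop_mono (fun n => ?_) h1
  have h2 := mx1_le_of_lp (f n) (hf n) p hp
  rw [le_div_iff₀ hp] at h2
  linarith

end

end Pool.Agent.H887R3.LW
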