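import Pool.Agent.H887R3.LW.MV18

/-!
# Part 19: the sets `M(G)` contain the limits of the measures of their one-variable substitutions
-/

set_option autoImplicit false

namespace Pool.Agent.H887R3.LW

open Filter MeasureTheory Topology Set
open Pool.Agent.H261R2.CM

noncomputable section

theorem norm_tv_msub {q m : ℕ} (E : Fin q → Fin m → ℤ) (L : ℕ) (C : MvPolynomial (Fin q) ℤ)
    (hL : ∀ s ∈ C.support, ∀ l, |∑ i, (s i : ℤ) * E i l| ≤ (L : ℤ)) (t : Fin m → ℝ) :
    ‖tv (msub E L C) t‖ = ‖tv C (fun i => ∑ l, (E i l : ℝ) * t l)‖ := by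
  have hkey : tv (msub E L C) t = (∏ l, J.zz t l ^ L) * tv C (fun i => ∑ l, (E i l : ℝ) * t l) := by
    conv_rhs => rw [C.as_sum]
    unfold msub
    rw [J.tv_eq, J.tv_eq, map_sum, map_sum, Finset.mul_sum]
    refine Finset.sum_congr rfl fun s hs => ?_
    rw [← J.tv_eq, ← J.tv_eq, J.tv_monomial, J.tv_monomial]
    have h1 : ∀ l, J.zz t l ^ (ex E L s l) = J.zz t l ^ L *
        Complex.exp (2 * (Real.pi : ℂ) * Complex.I * ((∑ i, (s i : ℂ) * (E i l : ℂ)) * (t l : ℂ))) := by
      intro l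
      have h2 := ex_apply E L s l (hL s hs l)
      unfold J.zz
      rw [← Complex.exp_nat_mul, ← Complex.exp_nat_mul, ← Complex.exp_add]
      congr 1
      have h3 : ((ex E L s l : ℕ) : ℂ) = (L : ℂ) + ∑ i, (s i : ℂ) * (E i l : ℂ) := by
        have h4 := congrArg (fun z : ℤ => (z : ℂ)) h2
        simpa using h4
      rw [h3]
      ring
    have h5 : (∏ l, J.zz t l ^ (ex E L s l)) = (∏ l, J.zz t l ^ L) *
        ∏ i, J.zz (fun i => ∑ l, (E i l : ℝ) * t l) i ^ (s i) := by
      rw [Finset.prod_congr rfl fun l _ => h1 l, Finset.prod_mul_distrib]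
      congr 1
      unfold J.zz
      rw [← Complex.exp_sum]
      have h6 : ∀ i, Complex.exp (2 * (Real.pi : ℂ) * Complex.I *
          (((∑ l, (E i l : ℝ) * t l : ℝ)) : ℂ)) ^ (s i) =
          Complex.exp ((s i : ℂ) * (2 * (Real.pi : ℂ) * Complex.I *
          (((∑ l, (E i l : ℝ) * t l : ℝ)) : ℂ))) := fun i => by rw [← Complex.exp_nat_mul]
      rw [Finset.prod_congr rfl fun i _ => h6 i, ← Complex.exp_sum]
      congr 1
      push_cast
      simp only [Finset.mul_sum, Finset.sum_mul]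
      rw [Finset.sum_comm]
      refine Finset.sum_congr rfl fun i _ => Finset.sum_congr rfl fun l _ => ?_
      ring
    rw [h5]
    ring
  rw [hkey, norm_mul, norm_prod]
  simp [J.norm_zz]

theorem m1_X_pow_mul (N : ℕ) (f : Polynomial ℤ) : m1 (Polynomial.X ^ N * f) = m1 f := by
  rw [I1_m1_mul]
  have : m1 (Polynomial.X ^ N) = 1 := by
    unfold m1 toC
    rw [Polynomial.map_pow, Polynomial.map_X, ← Polynomial.monomial_one_right_eq_X_pow]
    have h := Polynomial.logMahlerMeasure_monomial N (1 : ℂ)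
    rw [Polynomial.logMahlerMeasure_eq_log_MahlerMeasure, norm_one, Real.log_one] at h
    have h1 : 0 < (Polynomial.monomial N (1 : ℂ)).mahlerMeasure :=
      Polynomial.mahlerMeasure_pos_of_ne_zero (by simp)
    rcases Real.log_eq_zero.1 h with h6 | h6 | h6 <;> linarith
  rw [this, one_mul]

theorem MM_closed_seq {q : ℕ} (C : MvPolynomial (Fin q) ℤ) (a : ℕ → Fin q → ℕ)
    (hne : ∀ᶠ n in (hyperfilter ℕ : Filter ℕ), spec (a n) C ≠ 0) (y : ℝ)
    (hy : Tendsto (fun n => m1 (spec (a n) C)) (hyperfilter ℕ : Filter ℕ) (𝓝 y)) :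
    Real.log y ∈ MM C := by
  classical
  set γ : Fin q → Gam := fun i => (((fun n => (a n i : ℤ)) : ℕ → ℤ) : Gam) with hγ
  set Γ : Submodule ℤ Gam := Submodule.span ℤ (Set.range γ) with hΓ
  have : Module.Finite ℤ Γ := by
    rw [hΓ]
    exact Module.Finite.span_of_finite ℤ (Set.finite_range γ)
  obtain ⟨k, b, hk, hbpos, hbΓ, hind, hspan⟩ := pos_basis Γ
  have hE' : ∀ i, ∃ c : Fin k → ℤ, ∑ l, c l • b l = γ i := fun i =>
    hspan (γ i) (Submodule.subset_span ⟨i, rfl⟩)
  choose E hE using hE'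
  set e : ℕ → Fin k → ℕ := fun n i => (rep (b i) n).toNat with he
  have hbn : ∀ i, ∀ᶠ n in (hyperfilter ℕ : Filter ℕ), 0 < rep (b i) n := by
    intro i
    have h1 : (0 : Gam) < ((rep (b i) : ℕ → ℤ) : Gam) := by
      rw [TG.rep_spec]
      exact hbpos i
    exact (Filter.Germ.coe_pos (φ := hyperfilter ℕ) (f := rep (b i))).1 h1
  have hev_e : ∀ᶠ n in (hyperfilter ℕ : Filter ℕ), ∀ i, (e n i : ℤ) = rep (b i) n := by
    rw [Filter.eventually_all]
    intro i
    filter_upwards [hbn i] with n hn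
    simp only [he]
    exact Int.toNat_of_nonneg hn.le
  have hAI : AsympIndep (hyperfilter ℕ : Filter ℕ) e := by
    intro s hs
    rw [Ultrafilter.eventually_not]
    intro h0
    apply hs
    apply hind s
    rw [TG.rel_zero]
    filter_upwards [h0, hev_e] with n h0 h1
    rw [← h0]
    exact Finset.sum_congr rfl fun i _ => by rw [h1 i]
  have hcoord : ∀ᶠ n in (hyperfilter ℕ : Filter ℕ), ∀ i,
      (a n i : ℤ) = ∑ l, E i l * (e n l : ℤ) := by
    rw [Filter.eventually_all]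
    intro i
    have h1 := (TG.rel_iff b (E i) (γ i)).1 (hE i)
    have h2 : ∀ᶠ n in (hyperfilter ℕ : Filter ℕ), rep (γ i) n = (a n i : ℤ) := by
      have h3 : ((rep (γ i) : ℕ → ℤ) : Gam) = (((fun n => (a n i : ℤ)) : ℕ → ℤ) : Gam) :=
        TG.rep_spec (γ i)
      rw [Filter.Germ.coe_eq] at h3
      exact h3
    filter_upwards [h1, h2, hev_e] with n h1 h2 h3
    rw [← h2, ← h1]
    exact Finset.sum_congr rfl fun l _ => by rw [h3 l]
  set L : ℕ := ∑ s ∈ C.support, ∑ l, (∑ i, (s i : ℤ) * E i l).natAbs with hLdef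
  have hL : ∀ s ∈ C.support, ∀ l, |∑ i, (s i : ℤ) * E i l| ≤ (L : ℤ) := by
    intro s hs l
    have h1 : (∑ i, (s i : ℤ) * E i l).natAbs ≤ ∑ l, (∑ i, (s i : ℤ) * E i l).natAbs :=
      Finset.single_le_sum (f := fun l => (∑ i, (s i : ℤ) * E i l).natAbs)
        (fun _ _ => Nat.zero_le _) (Finset.mem_univ l)
    have h2 : ∑ l, (∑ i, (s i : ℤ) * E i l).natAbs ≤ L :=
      Finset.single_le_sum (f := fun s : Fin q →₀ ℕ => ∑ l, (∑ i, (s i : ℤ) * E i l).natAbs)
        (fun _ _ => Nat.zero_le _) hs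
    rw [Int.abs_eq_natAbs]
    exact_mod_cast h1.trans h2
  have hspec : ∀ᶠ n in (hyperfilter ℕ : Filter ℕ), spec (e n) (msub E L C) =
      Polynomial.X ^ (L * ∑ l, e n l) * spec (a n) C := by
    filter_upwards [hcoord] with n hn
    exact spec_msub E L C hL (e n) (a n) hn
  have hH0 : msub E L C ≠ 0 := by
    intro h0
    obtain ⟨n, h1, h2⟩ := (hspec.and hne).exists
    rw [h0, map_zero] at h1
    exact mul_ne_zero (pow_ne_zero _ Polynomial.X_ne_zero) h2 h1.symm
  have hlim := m1_lim (hyperfilter ℕ : Filter ℕ) e hAI (msub E L C) hH0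
  have hlim' : Tendsto (fun n => m1 (spec (a n) C)) (hyperfilter ℕ : Filter ℕ)
      (𝓝 (mM (msub E L C))) := by
    refine hlim.congr' ?_
    filter_upwards [hspec] with n hn
    rw [hn, m1_X_pow_mul]
  have hyH : y = mM (msub E L C) := tendsto_nhds_unique hy hlim'
  refine ⟨k, fun l i => E i l, ?_, ?_⟩
  · obtain ⟨t, ht⟩ : ∃ t : Fin k → ℝ, tv (msub E L C) t ≠ 0 := by
      by_contra hcon
      push Not at hcon
      exact hH0 (J.eq_of_tv_eq fun t => by rw [hcon t, J.tv_eq, map_zero])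
    refine ⟨t, ?_⟩
    have h1 := norm_tv_msub E L C hL t
    intro h2
    apply ht
    rw [← norm_eq_zero, h1, norm_eq_zero]
    exact h2
  · rw [hyH, log_mM]
    refine integral_congr_ae (Eventually.of_forall fun t => ?_)
    simp only
    rw [norm_tv_msub E L C hL t]

end

end Pool.Agent.H887R3.LW
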