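import Pool.Agent.H887R3.LW.MV19

/-!
# Part 20: sequences of polynomials whose measures avoid the sets `M(G)`
-/

set_option autoImplicit false

namespace Pool.Agent.H887R3.LW

open Filter MeasureTheory Topology Set
open Pool.Agent.H261R2.CM

noncomputable section

/-- the linear form with coefficients `a` -/
def Lf {r : ℕ} (a : Fin r → ℤ) : MvPolynomial (Fin r) ℤ :=
  ∑ i, MvPolynomial.C (a i) * MvPolynomial.X i

theorem spec_Lf {r : ℕ} (a : Fin r → ℤ) (s : Fin r → ℕ) :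
    spec s (Lf a) = ∑ i, Polynomial.C (a i) * Polynomial.X ^ (s i) := by
  unfold Lf spec
  rw [map_sum]
  refine Finset.sum_congr rfl fun i _ => ?_
  rw [map_mul, MvPolynomial.aeval_X, MvPolynomial.aeval_C]
  rfl

/-- the index set of the finite family of linear forms -/
abbrev Idx (N : ℕ) : Type := Σ r : Fin (N + 1), (Fin r → Fin (2 * N + 1))

/-- the finite family of linear forms -/
def GI {N : ℕ} (ι : Idx N) : MvPolynomial (Fin ι.1) ℤ := Lf fun i => ((ι.2 i : ℕ) : ℤ) - N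

theorem rep_len (N : ℕ) (h : Polynomial ℤ) (hlen : len h ≤ N) :
    ∃ (ι : Idx N) (s : Fin ι.1 → ℕ), h = spec s (GI ι) := by
  classical
  have hone : ∀ i ∈ h.support, (1 : ℤ) ≤ |h.coeff i| := fun i hi =>
    Int.one_le_abs (Polynomial.mem_support_iff.1 hi)
  have hcard : h.support.card ≤ N := by
    have h1 : (h.support.card : ℤ) ≤ len h := by
      unfold len
      calc (h.support.card : ℤ) = ∑ i ∈ h.support, (1 : ℤ) := by simp
        _ ≤ ∑ i ∈ h.support, |h.coeff i| := Finset.sum_le_sum hone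
    exact_mod_cast h1.trans hlen
  have hcoef : ∀ i, |h.coeff i| ≤ (N : ℤ) := by
    intro i
    by_cases hi : i ∈ h.support
    · refine le_trans ?_ hlen
      unfold len
      exact Finset.single_le_sum (f := fun i => |h.coeff i|) (fun _ _ => abs_nonneg _) hi
    · rw [Polynomial.notMem_support_iff.1 hi]
      simp
  set r := h.support.card with hr
  set s : Fin r → ℕ := fun i => h.support.orderEmbOfFin rfl i with hs
  have hlt : ∀ i : Fin r, (h.coeff (s i) + N).toNat < 2 * N + 1 := by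
    intro i
    have h1 := abs_le.1 (hcoef (s i))
    omega
  refine ⟨⟨⟨r, by omega⟩, fun i => ⟨(h.coeff (s i) + N).toNat, hlt i⟩⟩, s, ?_⟩
  unfold GI
  rw [spec_Lf]
  have h2 : ∀ i : Fin r, ((((h.coeff (s i) + N).toNat : ℕ) : ℤ)) - N = h.coeff (s i) := by
    intro i
    have h1 := abs_le.1 (hcoef (s i))
    omega
  have h3 : h = ∑ i : Fin r, Polynomial.C (h.coeff (s i)) * Polynomial.X ^ (s i) := by
    conv_lhs => rw [h.as_sum_support_C_mul_X_pow]
    rw [← Finset.sum_coe_sort]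
    exact (Equiv.sum_comp (h.support.orderIsoOfFin rfl).toEquiv
      (fun i : h.support => Polynomial.C (h.coeff i) * Polynomial.X ^ (i : ℕ))).symm
  conv_lhs => rw [h3]
  refine Finset.sum_congr rfl fun i _ => ?_
  simp only [h2 i]

theorem family (K : ℝ) : ∃ N : ℕ, ∀ (k : ℕ) (F : MvPolynomial (Fin k) ℤ), F ≠ 0 → mx F 1 ≤ K →
    ∃ ι : Idx N, GI ι ≠ 0 ∧ Real.log (mM F) ∈ MM (GI ι) := by
  classical
  obtain ⟨N, hN⟩ := logplus_structure (K + 1)
  refine ⟨N, fun k F hF hK => ?_⟩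
  have happ : ∀ n : ℕ, ∃ (M : ℕ) (A B R : Polynomial ℤ), 0 ≤ M ∧ A ≠ 0 ∧ B ≠ 0 ∧ R ≠ 0 ∧
      IsRelPrime A B ∧ spec (pw M k) F = R * A ∧ spec (pw M k) (1 : MvPolynomial (Fin k) ℤ) = R * B ∧
      |m1 A - mM F| < 1 / ((n : ℝ) + 1) ∧ |mx1 A B - mx F 1| < 1 / ((n : ℝ) + 1) ∧
      |m1 B - mM (1 : MvPolynomial (Fin k) ℤ)| < 1 / ((n : ℝ) + 1) :=
    fun n => approx_gen F 1 hF one_ne_zero isRelPrime_one_right _ (by positivity) _
  choose M A B R _ hA hB hR _ hFA hGB h1 h2 _ using happ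
  have hle1 : ∀ n : ℕ, 1 / ((n : ℝ) + 1) ≤ 1 := by
    intro n
    rw [div_le_one (by positivity)]
    have : (0 : ℝ) ≤ n := Nat.cast_nonneg n
    linarith
  have hBu : ∀ n t, ‖ev1 (B n) t‖ = 1 := by
    intro n t
    have h3 := hGB n
    rw [map_one] at h3
    have hu : IsUnit (B n) := IsUnit.of_mul_eq_one (R n) (by rw [mul_comm]; exact h3.symm)
    rw [Polynomial.isUnit_iff] at hu
    obtain ⟨u, hu1, hu2⟩ := hu
    rw [← hu2]
    unfold ev1 toC
    rw [Polynomial.map_C, Polynomial.eval_C]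
    rcases Int.isUnit_iff.1 hu1 with h | h <;> simp [h]
  have hmx1 : ∀ n, mx1 (A n) 1 = mx1 (A n) (B n) := by
    intro n
    unfold mx1
    refine intervalIntegral.integral_congr fun t _ => ?_
    simp only [ev1_one, norm_one, hBu]
  have hex : ∀ n, ∃ (ι : Idx N) (s : Fin ι.1 → ℕ), spec s (GI ι) ≠ 0 ∧
      m1 (spec s (GI ι)) = m1 (A n) := by
    intro n
    obtain ⟨Φ, hΦ, hm, -, hlen⟩ := hN (A n) (hA n) (by
      rw [hmx1]
      have h3 := (abs_lt.1 (h2 n)).2
      have h4 := hle1 n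
      linarith)
    obtain ⟨ι, s, hs⟩ := rep_len N (A n * Φ) hlen
    refine ⟨ι, s, ?_, ?_⟩
    · rw [← hs]
      exact mul_ne_zero (hA n) hΦ
    · rw [← hs, I1_m1_mul, hm, mul_one]
  choose ι s hs1 hs2 using hex
  obtain ⟨ι₀, -, hι₀⟩ := (Ultrafilter.finite_biUnion_mem_iff (f := hyperfilter ℕ)
    (s := fun i : Idx N => {n : ℕ | ι n = i}) (Set.finite_univ (α := Idx N))).1 (by
      have : (⋃ i ∈ (Set.univ : Set (Idx N)), {n : ℕ | ι n = i}) = Set.univ := by
        ext n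
        simp
      rw [this]
      exact Filter.univ_mem)
  have hev : ∀ᶠ n in (hyperfilter ℕ : Filter ℕ), ∃ a : Fin ι₀.1 → ℕ, spec a (GI ι₀) ≠ 0 ∧
      m1 (spec a (GI ι₀)) = m1 (A n) := by
    filter_upwards [hι₀] with n hn
    have hn' : ι n = ι₀ := hn
    subst hn'
    exact ⟨s n, hs1 n, hs2 n⟩
  obtain ⟨a, ha⟩ := hev.choice
  have hlim : Tendsto (fun n => m1 (A n)) atTop (𝓝 (mM F)) := by
    rw [tendsto_iff_norm_sub_tendsto_zero]
    refine squeeze_zero (fun _ => norm_nonneg _) (fun n => ?_) tendsto_one_div_add_atTop_nhds_zero_nat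
    rw [Real.norm_eq_abs]
    exact (h1 n).le
  have hlim' : Tendsto (fun n => m1 (spec (a n) (GI ι₀))) (hyperfilter ℕ : Filter ℕ)
      (𝓝 (mM F)) := by
    refine (hlim.mono_left I2_hyper_le).congr' ?_
    filter_upwards [ha] with n hn
    exact hn.2.symm
  refine ⟨ι₀, ?_, MM_closed_seq (GI ι₀) a (ha.mono fun n hn => hn.1) _ hlim'⟩
  intro h0
  obtain ⟨n, hn, -⟩ := ha.exists
  rw [h0, map_zero] at hn
  exact hn rfl

/-- if the measures of the `F n` avoid the sets `M(G)`, then `∫ log⁺ |F n|` tends to infinity -/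
theorem avoid_mv (d : ℕ → ℕ) (F : ∀ n, MvPolynomial (Fin (d n)) ℤ) (hF : ∀ n, F n ≠ 0)
    (hfin : ∀ (k : ℕ) (G : MvPolynomial (Fin k) ℤ), G ≠ 0 →
      {n : ℕ | Real.log (mM (F n)) ∈ MM G}.Finite) :
    Tendsto (fun n => mx (F n) 1) atTop atTop := by
  classical
  rw [tendsto_atTop]
  intro K
  obtain ⟨N, hN⟩ := family K
  have hbad : {n : ℕ | mx (F n) 1 ≤ K}.Finite := by
    refine Set.Finite.subset (Set.Finite.biUnion (Set.finite_univ (α := Idx N))
      (t := fun ι => {n : ℕ | GI ι ≠ 0 ∧ Real.log (mM (F n)) ∈ MM (GI ι)}) ?_) ?_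
    · intro ι _
      by_cases h0 : GI ι = 0
      · convert Set.finite_empty
        ext n
        simp [h0]
      · exact (hfin _ _ h0).subset fun n hn => hn.2
    · intro n hn
      obtain ⟨ι, h1, h2⟩ := hN _ (F n) (hF n) hn
      simp only [Set.mem_iUnion]
      exact ⟨ι, Set.mem_univ _, h1, h2⟩
  have h1 := hbad.eventually_cofinite_notMem
  rw [Nat.cofinite_eq_atTop] at h1
  filter_upwards [h1] with n hn
  exact (not_le.1 hn).le

theorem mx_le_lp {k : ℕ} (F : MvPolynomial (Fin k) ℤ) (hF : F ≠ 0) (p : ℝ) (hp : 0 < p) :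
    p * mx F 1 ≤ ∫ t in Set.Icc (0 : Fin k → ℝ) 1, ‖tv F t‖ ^ p := by
  unfold mx
  rw [← integral_const_mul]
  have hint : IntegrableOn (fun t : Fin k → ℝ => Real.log (max ‖tv F t‖
      ‖tv (1 : MvPolynomial (Fin k) ℤ) t‖)) (Set.Icc 0 1) := by
    have h1 := K4_intk thM thM_cont thM_ge F 1 hF
    have h2 := h1.const_mul (1 / 2)
    refine h2.congr (Eventually.of_forall fun t => ?_)
    simp only
    rw [thM_log (norm_nonneg _) (norm_nonneg _)]
    ring
  refine integral_mono_ae (hint.const_mul p) ?_ ?_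
  · refine ContinuousOn.integrableOn_compact isCompact_Icc (Continuous.continuousOn ?_)
    exact (F_continuous_tv F).norm.rpow_const fun t => Or.inr hp.le
  · filter_upwards with t
    rw [J.tv_one, norm_one]
    rcases le_total ‖tv F t‖ 1 with h | h
    · rw [max_eq_right h, Real.log_one, mul_zero]
      positivity
    · rw [max_eq_left h]
      have h3 := Real.log_le_rpow_div (norm_nonneg (tv F t)) hp
      rw [le_div_iff₀ hp] at h3
      linarith

theorem avoid_mv_lp (d : ℕ → ℕ) (F : ∀ n, MvPolynomial (Fin (d n)) ℤ) (hF : ∀ n, F n ≠ 0)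
    (hfin : ∀ (k : ℕ) (G : MvPolynomial (Fin k) ℤ), G ≠ 0 →
      {n : ℕ | Real.log (mM (F n)) ∈ MM G}.Finite) (p : ℝ) (hp : 0 < p) :
    Tendsto (fun n => ∫ t in Set.Icc (0 : Fin (d n) → ℝ) 1, ‖tv (F n) t‖ ^ p) atTop atTop :=
  tendsto_atTop_mono (fun n => mx_le_lp (F n) (hF n) p hp)
    ((avoid_mv d F hF hfin).const_mul_atTop hp)

end

end Pool.Agent.H887R3.LW
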