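import Pool.Agent.H887R3.LW.MV5

/-!
# Part 6: equality of the measures when the exponents are independent
-/

set_option autoImplicit false

namespace Pool.Agent.H887R3.LW

open Polynomial Filter MeasureTheory Topology
open Pool.Agent.H261R2.CM

noncomputable section

/-- generic exponents in the direction of `(M ^ l)` -/
def rr (M m : ℕ) (N : ℕ) : Fin m → ℕ := fun l => N ^ m * pw M m l + N ^ (l : ℕ)

theorem rr_asymp (M m : ℕ) : AsympIndep (atTop : Filter ℕ) (rr M m) := by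
  intro s hs
  set s' : Fin (m + 1) → ℤ := Fin.snoc s (∑ l, s l * (pw M m l : ℤ)) with hs'
  have hne : s' ≠ 0 := by
    intro h
    apply hs
    funext i
    have := congrFun h i.castSucc
    rw [hs', Fin.snoc_castSucc] at this
    exact this
  filter_upwards [asympIndep_pow (m + 1) s' hne] with N hN h0
  apply hN
  rw [Fin.sum_univ_castSucc]
  simp only [hs', Fin.snoc_castSucc, Fin.snoc_last, Fin.val_castSucc, Fin.val_last]
  rw [← h0]
  unfold rr
  rw [Finset.sum_mul, ← Finset.sum_add_distrib]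
  refine Finset.sum_congr rfl fun l _ => ?_
  push_cast
  ring

theorem rr_pos {k m : ℕ} (E : Fin k → Fin m → ℤ) (M : ℕ) (e : Fin k → ℕ) (hpos : ∀ i, 0 < e i)
    (he : ∀ i, (e i : ℤ) = ∑ l, E i l * (pw M m l : ℤ)) :
    ∀ᶠ N in (atTop : Filter ℕ), ∀ i, 0 ≤ ∑ l, E i l * (rr M m N l : ℤ) := by
  filter_upwards [eventually_ge_atTop (1 + ∑ i, ∑ l, (E i l).natAbs)] with N hN i
  have h1 : ∑ l, E i l * (rr M m N l : ℤ) =
      (N : ℤ) ^ m * (e i : ℤ) + ∑ l : Fin m, E i l * (N : ℤ) ^ (l : ℕ) := by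
    rw [he i, Finset.mul_sum, ← Finset.sum_add_distrib]
    refine Finset.sum_congr rfl fun l _ => ?_
    unfold rr
    push_cast
    ring
  have hN1 : (1 : ℤ) ≤ N := by
    have : 1 ≤ N := by omega
    exact_mod_cast this
  have h2 : (N : ℤ) * |∑ l : Fin m, E i l * (N : ℤ) ^ (l : ℕ)| ≤ (N : ℤ) * (N : ℤ) ^ m := by
    calc (N : ℤ) * |∑ l : Fin m, E i l * (N : ℤ) ^ (l : ℕ)|
        ≤ (N : ℤ) * ∑ l : Fin m, |E i l * (N : ℤ) ^ (l : ℕ)| :=
          mul_le_mul_of_nonneg_left (Finset.abs_sum_le_sum_abs _ _) (by linarith)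
      _ ≤ ∑ l : Fin m, |E i l| * (N : ℤ) ^ m := by
          rw [Finset.mul_sum]
          refine Finset.sum_le_sum fun l _ => ?_
          rw [abs_mul, abs_of_nonneg (show (0 : ℤ) ≤ (N : ℤ) ^ (l : ℕ) by positivity)]
          have h3 : (N : ℤ) ^ ((l : ℕ) + 1) ≤ (N : ℤ) ^ m := pow_le_pow_right₀ hN1 l.2
          calc (N : ℤ) * (|E i l| * (N : ℤ) ^ (l : ℕ)) = |E i l| * (N : ℤ) ^ ((l : ℕ) + 1) := by ring
            _ ≤ _ := mul_le_mul_of_nonneg_left h3 (abs_nonneg _)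
      _ = (∑ l : Fin m, |E i l|) * (N : ℤ) ^ m := by rw [Finset.sum_mul]
      _ ≤ (N : ℤ) * (N : ℤ) ^ m := by
          refine mul_le_mul_of_nonneg_right ?_ (by positivity)
          have h4 : ∑ l, (E i l).natAbs ≤ ∑ i, ∑ l, (E i l).natAbs :=
            Finset.single_le_sum (f := fun i => ∑ l, (E i l).natAbs) (fun _ _ => Nat.zero_le _)
              (Finset.mem_univ i)
          have h5 : ∑ l, (E i l).natAbs ≤ N := by omega
          have h6 : (∑ l : Fin m, |E i l|) = ((∑ l, (E i l).natAbs : ℕ) : ℤ) := by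
            push_cast
            rfl
          rw [h6]
          exact_mod_cast h5
  have h3 : |∑ l : Fin m, E i l * (N : ℤ) ^ (l : ℕ)| ≤ (N : ℤ) ^ m :=
    le_of_mul_le_mul_left h2 (by linarith)
  rw [abs_le] at h3
  have h4 : (1 : ℤ) ≤ e i := by exact_mod_cast hpos i
  have h5 : (N : ℤ) ^ m ≤ (N : ℤ) ^ m * (e i : ℤ) := by
    have : (0 : ℤ) ≤ (N : ℤ) ^ m := by positivity
    nlinarith
  rw [h1]
  linarith [h3.1]

theorem meas_eq2 {k m : ℕ} (C D : MvPolynomial (Fin k) ℤ) (F G : MvPolynomial (Fin m) ℤ)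
    (hC : C ≠ 0) (hD : D ≠ 0) (hCD : IsRelPrime C D)
    (hF : F ≠ 0) (hG : G ≠ 0) (hFG : IsRelPrime F G)
    (E : Fin k → Fin m → ℤ) (hE : ∀ c : Fin k → ℤ, (∀ l, ∑ i, c i * E i l = 0) → c = 0) (L : ℕ)
    (hL : ∀ s ∈ C.support ∪ D.support, ∀ l, |∑ i, (s i : ℤ) * E i l| ≤ (L : ℤ))
    (M : ℕ) (e : Fin k → ℕ) (hpos : ∀ i, 0 < e i)
    (he : ∀ i, (e i : ℤ) = ∑ l, E i l * (pw M m l : ℤ))
    (hrel : msub E L D * F = msub E L C * G) : mM F = mM C ∧ mx F G = mx C D := by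
  classical
  have hle : (hyperfilter ℕ : Filter ℕ) ≤ atTop := I2_hyper_le
  set r : ℕ → Fin m → ℕ := rr M m with hr
  set eN : ℕ → Fin k → ℕ := fun N i => (∑ l, E i l * (r N l : ℤ)).toNat with heN
  have heN' : ∀ᶠ N in (hyperfilter ℕ : Filter ℕ), ∀ i,
      (eN N i : ℤ) = ∑ l, E i l * (r N l : ℤ) := by
    filter_upwards [hle (rr_pos E M e hpos he)] with N hN i
    exact Int.toNat_of_nonneg (hN i)
  have hr1 : AsympIndep (hyperfilter ℕ : Filter ℕ) r := fun s hs => hle (rr_asymp M m s hs)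
  have he1 : AsympIndep (hyperfilter ℕ : Filter ℕ) eN := by
    intro c hc
    have hne : (fun l => ∑ i, c i * E i l) ≠ 0 := fun h => hc (hE c fun l => congrFun h l)
    filter_upwards [hr1 _ hne, heN'] with N h1 h2 h0
    apply h1
    rw [← h0]
    have h3 : ∀ l, (∑ i, c i * E i l) * (r N l : ℤ) = ∑ i, c i * (E i l * (r N l : ℤ)) := by
      intro l
      rw [Finset.sum_mul]
      exact Finset.sum_congr rfl fun i _ => by ring
    rw [Finset.sum_congr rfl fun l _ => h3 l, Finset.sum_comm]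
    refine Finset.sum_congr rfl fun i _ => ?_
    rw [h2 i, Finset.mul_sum]
  -- the relation in one variable
  have hrelN : ∀ᶠ N in (hyperfilter ℕ : Filter ℕ),
      spec (eN N) D * spec (r N) F = spec (eN N) C * spec (r N) G := by
    filter_upwards [heN'] with N hN
    have h1 := congrArg (spec (r N)) hrel
    rw [map_mul, map_mul,
      spec_msub E L D (fun s hs => hL s (Finset.mem_union_right _ hs)) (r N) (eN N) hN,
      spec_msub E L C (fun s hs => hL s (Finset.mem_union_left _ hs)) (r N) (eN N) hN,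
      mul_assoc, mul_assoc] at h1
    exact mul_left_cancel₀ (pow_ne_zero _ X_ne_zero) h1
  have hex : ∀ n, ∃ A B R : ℤ[X], A ≠ 0 ∧ B ≠ 0 ∧ IsRelPrime A B ∧
      (spec (r n) F ≠ 0 → spec (r n) G ≠ 0 → R ≠ 0 ∧ spec (r n) F = R * A ∧
        spec (r n) G = R * B) := by
    intro n
    by_cases h1 : spec (r n) F ≠ 0 ∧ spec (r n) G ≠ 0
    · obtain ⟨A, B, Q, hAB, hA, hB⟩ := UniqueFactorizationMonoid.exists_reduced_factors
        (spec (r n) F) h1.1 (spec (r n) G)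
      refine ⟨A, B, Q, ?_, ?_, hAB, fun _ _ => ⟨?_, ?_, ?_⟩⟩
      · rintro rfl
        exact h1.1 (by rw [← hA, mul_zero])
      · rintro rfl
        exact h1.2 (by rw [← hB, mul_zero])
      · rintro rfl
        exact h1.1 (by rw [← hA, zero_mul])
      · rw [← hA]
      · rw [← hB]
    · exact ⟨1, 1, 1, one_ne_zero, one_ne_zero, isRelPrime_one_left,
        fun h2 h3 => absurd ⟨h2, h3⟩ h1⟩
  choose A B R hA hB hAB hR using hex
  have hev : ∀ᶠ n in (hyperfilter ℕ : Filter ℕ), R n ≠ 0 ∧ spec (r n) F = R n * A n ∧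
      spec (r n) G = R n * B n := by
    filter_upwards [spec_ne_zero _ r hr1 F hF, spec_ne_zero _ r hr1 G hG] with n h1 h2
    exact hR n h1 h2
  have hrel1 : ∀ᶠ n in (hyperfilter ℕ : Filter ℕ), spec (r n) G * A n = spec (r n) F * B n := by
    filter_upwards [hev] with n h1
    rw [h1.2.1, h1.2.2]
    ring
  have hrel2 : ∀ᶠ n in (hyperfilter ℕ : Filter ℕ), spec (eN n) D * A n = spec (eN n) C * B n := by
    filter_upwards [hev, hrelN] with n h1 h2
    rw [h1.2.1, h1.2.2] at h2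
    apply mul_left_cancel₀ h1.1
    calc R n * (spec (eN n) D * A n) = spec (eN n) D * (R n * A n) := by ring
      _ = spec (eN n) C * (R n * B n) := h2
      _ = _ := by ring
  obtain ⟨hl1, hl1'⟩ := limit_all F G hF hG hFG (hyperfilter ℕ) r hr1 A B hA hB hAB hrel1
  obtain ⟨hl2, hl2'⟩ := limit_all C D hC hD hCD (hyperfilter ℕ) eN he1 A B hA hB hAB hrel2
  exact ⟨tendsto_nhds_unique hl1 hl2, tendsto_nhds_unique hl1' hl2'⟩

theorem meas_eq {k m : ℕ} (C D : MvPolynomial (Fin k) ℤ) (F G : MvPolynomial (Fin m) ℤ)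
    (hC : C ≠ 0) (hD : D ≠ 0) (hCD : IsRelPrime C D)
    (hF : F ≠ 0) (hG : G ≠ 0) (hFG : IsRelPrime F G)
    (E : Fin k → Fin m → ℤ) (hE : ∀ c : Fin k → ℤ, (∀ l, ∑ i, c i * E i l = 0) → c = 0) (L : ℕ)
    (hL : ∀ s ∈ C.support ∪ D.support, ∀ l, |∑ i, (s i : ℤ) * E i l| ≤ (L : ℤ))
    (M : ℕ) (e : Fin k → ℕ) (hpos : ∀ i, 0 < e i)
    (he : ∀ i, (e i : ℤ) = ∑ l, E i l * (pw M m l : ℤ))
    (hrel : msub E L D * F = msub E L C * G) :
    mM F = mM C ∧ mM G = mM D ∧ mx F G = mx C D := by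
  obtain ⟨h1, h2⟩ := meas_eq2 C D F G hC hD hCD hF hG hFG E hE L hL M e hpos he hrel
  refine ⟨h1, ?_, h2⟩
  exact (meas_eq2 D C G F hD hC hCD.symm hG hF hFG.symm E hE L
    (fun s hs => hL s (by rwa [Finset.union_comm])) M e hpos he hrel.symm).1

end

end Pool.Agent.H887R3.LW
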