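import Pool.Agent.H261R2.CM.L1

/-!
# A Lehmer gap for polynomials of bounded degree in one variable
-/

set_option autoImplicit false

namespace Pool.Agent.H887R3.LW

open Polynomial Filter MeasureTheory Topology
open Pool.Agent.H261R2.CM

noncomputable section

theorem mM_X_mul {k : ℕ} (i : Fin k) (F : MvPolynomial (Fin k) ℤ) :
    mM (MvPolynomial.X i * F) = mM F := by
  refine J.mM_congr fun t => ?_
  rw [J.norm_tv_mul, J.tv_X, J.norm_zz, one_mul]

/-- the gap for polynomials of degree at most `m` in one of the variables -/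
theorem gap_width (m : ℕ) : ∃ c : ℝ, 1 < c ∧ ∀ (k : ℕ) (F : MvPolynomial (Fin k) ℤ) (i : Fin k),
    F ≠ 0 → F.degreeOf i ≤ m → (∀ Q, Q ∣ F → Q.degreeOf i = 0 → IsUnit Q) →
    mM F = 1 ∨ c ≤ mM F := by
  obtain ⟨c, hc, h⟩ := gap_all ((m + 1) * Real.log 2)
  refine ⟨min c 2, lt_min hc (by norm_num), ?_⟩
  intro k F i hF hm hprim
  induction hn : F.degreeOf i using Nat.strong_induction_on generalizing F with
  | _ n ih =>
    by_cases hX : MvPolynomial.X i ∣ F
    · obtain ⟨F', hF'⟩ := hX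
      have hF0 : F' ≠ 0 := by
        rintro rfl
        exact hF (by rw [hF', mul_zero])
      have hdeg : F.degreeOf i = F'.degreeOf i + 1 := by
        rw [hF', MvPolynomial.degreeOf_mul_eq (MvPolynomial.X_ne_zero i) hF0]
        rw [MvPolynomial.degreeOf_X, if_pos rfl, add_comm]
      have h1 := ih (F'.degreeOf i) (by omega) F' hF0 (by omega)
        (fun Q hQ hQ0 => hprim Q (hQ.trans (Dvd.intro_left _ hF'.symm)) hQ0) rfl
      rw [hF', mM_X_mul]
      exact h1
    · by_cases hbig : 2 ≤ mM F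
      · right
        exact (min_le_right _ _).trans hbig
      · push Not at hbig
        have hpos : 0 < mM F := lt_of_lt_of_le one_pos (one_le_mM F hF)
        obtain ⟨F', G', h1, h2, h3, h4, h5⟩ := width_pair F hF i m hm hX hprim
        have h6 : mx F' G' ≤ (m + 1) * Real.log 2 := by
          have h7 : Real.log (mM F) ≤ Real.log 2 := Real.log_le_log hpos hbig.le
          linarith
        rcases h _ F' G' h1 h2 h3 h6 with h7 | h7
        · left
          rw [← h4, h7]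
        · right
          rw [← h4]
          exact (min_le_left _ _).trans h7

/-- the gap for the specialisations to one variable of a polynomial with a gap -/
theorem gap_spec {k : ℕ} (F : MvPolynomial (Fin k) ℤ) (hF : F ≠ 0) (c : ℝ)
    (hgap : mM F = 1 ∨ c ≤ mM F) (hc : 1 < c) :
    ∃ N₀ : ℕ, ∀ r : Fin k → ℕ, (∀ s : Fin k → ℤ, s ≠ 0 → (∀ j, |s j| ≤ (N₀ : ℤ)) →
      ∑ j, s j * (r j : ℤ) ≠ 0) → spec r F ≠ 0 ∧ (m1 (spec r F) = 1 ∨ (1 + c) / 2 ≤ m1 (spec r F)) := by
  by_contra hcon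
  push Not at hcon
  choose r hr1 hr2 using hcon
  have hAI : AsympIndep (atTop : Filter ℕ) r := by
    intro s hs
    obtain ⟨N, hN⟩ : ∃ N : ℕ, ∀ j, |s j| ≤ (N : ℤ) := by
      refine ⟨∑ j, (s j).natAbs, fun j => ?_⟩
      have h1 : (s j).natAbs ≤ ∑ j, (s j).natAbs :=
        Finset.single_le_sum (f := fun j => (s j).natAbs) (fun _ _ => Nat.zero_le _)
          (Finset.mem_univ j)
      rw [Int.abs_eq_natAbs]
      exact_mod_cast h1
    filter_upwards [eventually_ge_atTop N] with n hn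
    exact hr1 n s hs fun j => (hN j).trans (by exact_mod_cast hn)
  have hlim := m1_lim atTop r hAI F hF
  have hne := spec_ne_zero atTop r hAI F hF
  rcases hgap with h1 | h1
  · obtain ⟨c₁, hc₁, hg⟩ := spec_gap F hF
    rw [h1] at hlim
    obtain ⟨n, hn1, hn2⟩ := ((hlim.eventually_lt_const hc₁).and hne).exists
    have h2 := hr2 n hn2
    have h3 : 1 < m1 (spec (r n) F) :=
      lt_of_le_of_ne (I1_one_le_m1 hn2) (Ne.symm h2.1)
    exact absurd (hg (r n) h3) (not_le.mpr hn1)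
  · obtain ⟨n, hn1, hn2⟩ := ((hlim.eventually_const_lt (show (1 + c) / 2 < mM F by linarith)).and
      hne).exists
    have h2 := hr2 n hn2
    linarith [h2.2]

/-- both gaps -/
theorem width_all (m : ℕ) : ∃ c : ℝ, 1 < c ∧ ∀ (k : ℕ) (F : MvPolynomial (Fin k) ℤ) (i : Fin k),
    F ≠ 0 → F.degreeOf i ≤ m → (∀ Q, Q ∣ F → Q.degreeOf i = 0 → IsUnit Q) →
    (mM F = 1 ∨ c ≤ mM F) ∧
    ∃ N₀ : ℕ, ∀ r : Fin k → ℕ, (∀ s : Fin k → ℤ, s ≠ 0 → (∀ j, |s j| ≤ (N₀ : ℤ)) →
      ∑ j, s j * (r j : ℤ) ≠ 0) → spec r F ≠ 0 ∧ (m1 (spec r F) = 1 ∨ c ≤ m1 (spec r F)) := by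
  obtain ⟨c, hc, h⟩ := gap_width m
  refine ⟨(1 + c) / 2, by linarith, fun k F i hF hm hprim => ?_⟩
  have h1 := h k F i hF hm hprim
  refine ⟨?_, gap_spec F hF c h1 hc⟩
  rcases h1 with h2 | h2
  · exact Or.inl h2
  · right; linarith

end

end Pool.Agent.H887R3.LW
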